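import Pool.Agent.R218.Bohr.Tail

open Complex Metric Set Filter Topology
open Finset (range)

namespace Pool.Agent.R218.Bohr

lemma amgm {p q m κ : ℝ} (hp : 0 ≤ p) (hq : 0 ≤ q) (hκ : 0 < κ) (h : m ^ 2 = p * q) :
    2 * m ≤ p / κ + κ * q := by
  have h1 : 0 ≤ p / κ + κ * q := by positivity
  have h2 : (2 * m) ^ 2 ≤ (p / κ + κ * q) ^ 2 := by
    have e : (p / κ + κ * q) ^ 2 - 4 * (p * q) = (p / κ - κ * q) ^ 2 := by
      field_simp
      ring
    have : (2 * m) ^ 2 = 4 * (p * q) := by rw [mul_pow, h]; ring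
    nlinarith [sq_nonneg (p / κ - κ * q)]
  exact le_of_sq_le_sq h2 h1

lemma geom_le {q : ℝ} (h0 : 0 ≤ q) (h1 : q < 1) (N : ℕ) : ∑ n ∈ range N, q ^ n ≤ 1 / (1 - q) := by
  rw [one_div, ← tsum_geometric_of_lt_one h0 h1]
  exact (summable_geometric_of_lt_one h0 h1).sum_le_tsum _ (fun n _ => by positivity)

/-- the final optimisation: a bound for the majorant sum -/
lemma majorant {d : ℕ → ℝ} {β r t : ℝ} (hd : ∀ n, 0 ≤ d n) (hβ0 : 0 ≤ β) (hβ1 : β ≤ 1)
    (hs : ∀ ρ : ℝ, 0 < ρ → ρ < 1 → Summable (fun n => d n ^ 2 * ρ ^ n))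
    (htail : ∀ ρ : ℝ, 0 < ρ → ρ < 1 → (∑' n, d n ^ 2 * ρ ^ n) * (1 - β ^ 2 * ρ) ≤ (1 - β ^ 2) ^ 2)
    (hr0 : 0 < r) (hr : (3 - t) ^ 2 ≤ 8 * (1 - r ^ 2)) (ht : t ≤ 1) (N : ℕ) :
    β * r + r ^ 2 * ∑ n ∈ range N, d n * r ^ n ≤ t := by
  have hr2 : 2 * r ^ 2 ≤ 1 := by nlinarith
  have hrlt : r < 1 := by nlinarith
  -- basic consequence of the discriminant
  have hquad : ∀ y : ℝ, 0 ≤ 2 * y ^ 2 - (3 - t) * y + (1 - r ^ 2) := by
    intro y
    nlinarith [sq_nonneg (4 * y - (3 - t))]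
  have hβr : β * r < 1 := by nlinarith
  -- enough for the first regime
  have first : ∀ S : ℝ, S ≤ (1 - β ^ 2) / (1 - β * r) → β * r + r ^ 2 * S ≤ t := by
    intro S hS
    have hy : 0 < 1 - β * r := by linarith
    have h1 : r ^ 2 * S ≤ r ^ 2 * ((1 - β ^ 2) / (1 - β * r)) :=
      mul_le_mul_of_nonneg_left hS (by positivity)
    have h2 : β * r + r ^ 2 * ((1 - β ^ 2) / (1 - β * r)) ≤ t := by
      rw [← mul_div_assoc, ← le_sub_iff_add_le', div_le_iff₀ hy]
      have := hquad (1 - β * r)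
      nlinarith
    linarith
  rcases lt_or_ge r β with hrb | hrb
  · -- β > r
    have hβpos : 0 < β := hr0.trans hrb
    set ρ := r / β with hρ
    have hρ0 : 0 < ρ := by positivity
    have hρ1 : ρ < 1 := by rw [hρ, div_lt_one hβpos]; exact hrb
    have hβρ : β * ρ = r := by rw [hρ]; field_simp
    have hT := htail ρ hρ0 hρ1
    have hsm := hs ρ hρ0 hρ1
    set T := ∑' n, d n ^ 2 * ρ ^ n with hTd
    have e1 : 1 - β ^ 2 * ρ = 1 - β * r := by rw [← hβρ]; ring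
    rw [e1] at hT
    have hy : 0 < 1 - β * r := by linarith
    apply first
    rcases hβ1.lt_or_eq with hb | hb
    · have hκ : 0 < 1 - β ^ 2 := by nlinarith
      have hterm : ∀ n, 2 * (d n * r ^ n) ≤ (d n ^ 2 * ρ ^ n) / (1 - β ^ 2) + (1 - β ^ 2) * (β * r) ^ n := by
        intro n
        apply amgm (by have := hd n; positivity) (by positivity) hκ
        rw [mul_pow]
        have : (r ^ n) ^ 2 = ρ ^ n * (β * r) ^ n := by
          rw [← mul_pow, ← pow_mul, mul_comm n 2, pow_mul]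
          congr 1
          calc r ^ 2 = (β * ρ) * r := by rw [hβρ]; ring
            _ = ρ * (β * r) := by ring
        rw [this]; ring
      have hsum : 2 * ∑ n ∈ range N, d n * r ^ n
          ≤ T / (1 - β ^ 2) + (1 - β ^ 2) * (1 / (1 - β * r)) := by
        rw [Finset.mul_sum]
        calc ∑ n ∈ range N, 2 * (d n * r ^ n)
            ≤ ∑ n ∈ range N, ((d n ^ 2 * ρ ^ n) / (1 - β ^ 2) + (1 - β ^ 2) * (β * r) ^ n) :=
              Finset.sum_le_sum fun n _ => hterm n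
          _ = (∑ n ∈ range N, d n ^ 2 * ρ ^ n) / (1 - β ^ 2) + (1 - β ^ 2) * ∑ n ∈ range N, (β * r) ^ n := by
              rw [Finset.sum_add_distrib, Finset.sum_div, Finset.mul_sum]
          _ ≤ _ := by
              have a1 : ∑ n ∈ range N, d n ^ 2 * ρ ^ n ≤ T :=
                hsm.sum_le_tsum _ (fun n _ => by positivity)
              have a2 := geom_le (by positivity : 0 ≤ β * r) hβr N
              gcongr
      have hT2 : T / (1 - β ^ 2) ≤ (1 - β ^ 2) / (1 - β * r) := by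
        rw [div_le_div_iff₀ hκ hy]
        nlinarith
      have e3 : (1 - β ^ 2) * (1 / (1 - β * r)) = (1 - β ^ 2) / (1 - β * r) := by ring
      rw [e3] at hsum
      linarith
    · have hT0 : T ≤ 0 := by
        rw [hb] at hT
        have : T * (1 - 1 * r) ≤ 0 := by nlinarith
        have h2 : 0 < 1 - 1 * r := by linarith
        nlinarith
      have hdn : ∀ n, d n = 0 := by
        intro n
        have h1 : d n ^ 2 * ρ ^ n ≤ T := hsm.le_tsum n (fun m _ => by positivity)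
        have h2 : d n ^ 2 * ρ ^ n ≤ 0 := h1.trans hT0
        have h3 : 0 < ρ ^ n := by positivity
        have h4 : d n ^ 2 ≤ 0 := by nlinarith
        nlinarith [hd n]
      simp [hdn, hb]
  · -- β ≤ r
    have hb2 : β ^ 2 < 1 := by nlinarith
    have hfin : ∑ n ∈ range N, d n ^ 2 ≤ 1 - β ^ 2 := by
      have hc : Tendsto (fun ρ : ℝ => ∑ n ∈ range N, d n ^ 2 * ρ ^ n) (𝓝[<] 1)
          (𝓝 (∑ n ∈ range N, d n ^ 2 * (1:ℝ) ^ n)) := by
        apply tendsto_nhdsWithin_of_tendsto_nhds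
        apply Continuous.tendsto
        fun_prop
      simp only [one_pow, mul_one] at hc
      refine le_of_tendsto hc ?_
      have hnear : ∀ᶠ ρ : ℝ in 𝓝[<] 1, 0 < ρ :=
        eventually_nhdsWithin_of_eventually_nhds (lt_mem_nhds one_pos)
      filter_upwards [hnear, self_mem_nhdsWithin] with ρ hρ0 hρ1
      have hρ1' : ρ < 1 := hρ1
      have hT := htail ρ hρ0 hρ1'
      have hsm := hs ρ hρ0 hρ1'
      have a1 : ∑ n ∈ range N, d n ^ 2 * ρ ^ n ≤ ∑' n, d n ^ 2 * ρ ^ n :=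
        hsm.sum_le_tsum _ (fun n _ => by positivity)
      refine a1.trans ?_
      set T := ∑' n, d n ^ 2 * ρ ^ n
      have hT0 : 0 ≤ T := tsum_nonneg fun n => by positivity
      have hb2' : 0 ≤ β ^ 2 := sq_nonneg β
      have h1 : 0 < 1 - β ^ 2 := by linarith
      have h2 : T * (1 - β ^ 2) ≤ (1 - β ^ 2) * (1 - β ^ 2) := by
        have : 1 - β ^ 2 ≤ 1 - β ^ 2 * ρ := by nlinarith
        have := mul_le_mul_of_nonneg_left this hT0
        nlinarith
      exact le_of_mul_le_mul_right h2 h1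
    have hκ : 0 < 1 - r ^ 2 := by nlinarith
    have hterm : ∀ n, 2 * (d n * r ^ n) ≤ (d n ^ 2) / (1 - r ^ 2) + (1 - r ^ 2) * (r ^ 2) ^ n := by
      intro n
      apply amgm (by positivity) (by positivity) hκ
      rw [mul_pow, ← pow_mul, ← pow_mul, mul_comm n 2]
    have hsum : 2 * ∑ n ∈ range N, d n * r ^ n ≤ (1 - β ^ 2) / (1 - r ^ 2) + 1 := by
      rw [Finset.mul_sum]
      calc ∑ n ∈ range N, 2 * (d n * r ^ n)
          ≤ ∑ n ∈ range N, ((d n ^ 2) / (1 - r ^ 2) + (1 - r ^ 2) * (r ^ 2) ^ n) :=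
            Finset.sum_le_sum fun n _ => hterm n
        _ = (∑ n ∈ range N, d n ^ 2) / (1 - r ^ 2) + (1 - r ^ 2) * ∑ n ∈ range N, (r ^ 2) ^ n := by
            rw [Finset.sum_add_distrib, Finset.sum_div, Finset.mul_sum]
        _ ≤ (1 - β ^ 2) / (1 - r ^ 2) + (1 - r ^ 2) * (1 / (1 - r ^ 2)) := by
            have a2 := geom_le (by positivity : 0 ≤ r ^ 2) (by linarith : r ^ 2 < 1) N
            gcongr
        _ = (1 - β ^ 2) / (1 - r ^ 2) + 1 := by
            rw [mul_one_div_cancel hκ.ne']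
    have ht2 : 2 * r ^ 2 ≤ t := by
      have := hquad (1 - r ^ 2)
      have h5 : 0 ≤ (1 - r ^ 2) * (2 * (1 - r ^ 2) - (3 - t) + 1) := by nlinarith
      have h6 := nonneg_of_mul_nonneg_right h5 hκ
      linarith
    refine le_trans ?_ ht2
    have h7 : β * r + r ^ 2 * (((1 - β ^ 2) / (1 - r ^ 2) + 1) / 2) ≤ 2 * r ^ 2 := by
      have e : 2 * r ^ 2 - (β * r + r ^ 2 * (((1 - β ^ 2) / (1 - r ^ 2) + 1) / 2))
          = r * ((r - β) * (2 - 3 * r ^ 2 - r * β)) / (2 * (1 - r ^ 2)) := by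
        field_simp
        ring
      have : 0 ≤ r * ((r - β) * (2 - 3 * r ^ 2 - r * β)) / (2 * (1 - r ^ 2)) := by
        apply div_nonneg _ (by linarith)
        apply mul_nonneg hr0.le
        apply mul_nonneg (by linarith)
        nlinarith
      linarith
    have h8 : r ^ 2 * ∑ n ∈ range N, d n * r ^ n ≤ r ^ 2 * (((1 - β ^ 2) / (1 - r ^ 2) + 1) / 2) :=
      mul_le_mul_of_nonneg_left (by linarith) (by positivity)
    linarith

/-- the majorant bound for functions `G` with `|G'| ≤ |h'|`, `|h| ≤ 1` -/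
theorem core {h G : ℂ → ℂ} (hh : DifferentiableOn ℂ h (ball 0 1))
    (hG : DifferentiableOn ℂ G (ball 0 1)) (h00 : h 0 = 0)
    (hb : ∀ z ∈ ball (0:ℂ) 1, ‖h z‖ ≤ 1)
    (hle : ∀ z ∈ ball (0:ℂ) 1, ‖deriv G z‖ ≤ ‖deriv h z‖) {r t : ℝ}
    (hr0 : 0 ≤ r) (hr : (3 - t) ^ 2 ≤ 8 * (1 - r ^ 2)) (ht : t ≤ 1) (N : ℕ) :
    ∑ n ∈ range N, ‖coef G (n + 1)‖ * r ^ (n + 1) ≤ t := by
  have ht0 : 0 ≤ t := by nlinarith
  rcases hr0.eq_or_lt with h | hrpos
  · subst h
    simpa using ht0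
  have htail := fun (ρ : ℝ) (h0 : 0 < ρ) (h1 : ρ < 1) => tail hh hG h00 hb hle h0 h1
  have hβ1 : ‖coef G 1‖ ≤ 1 := (htail (1 / 2) (by norm_num) (by norm_num)).2
  have hs : ∀ ρ : ℝ, 0 < ρ → ρ < 1 → Summable (fun n => ‖coef G (n + 2)‖ ^ 2 * ρ ^ n) := by
    intro ρ hρ0 hρ1
    have := (summable_nat_add_iff 2).2 ((isPS_coef hG).summable_sq hρ0.le hρ1)
    refine (this.mul_left (ρ ^ 2)⁻¹).congr fun n => ?_
    rw [pow_add]; field_simp
  have hm := majorant (d := fun n => ‖coef G (n + 2)‖) (fun n => norm_nonneg _) (norm_nonneg _) hβ1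
    hs (fun ρ h0 h1 => (htail ρ h0 h1).1) hrpos hr ht N
  calc ∑ n ∈ range N, ‖coef G (n + 1)‖ * r ^ (n + 1)
      ≤ ∑ n ∈ range (N + 1), ‖coef G (n + 1)‖ * r ^ (n + 1) := by
        rw [Finset.sum_range_succ]
        have : 0 ≤ ‖coef G (N + 1)‖ * r ^ (N + 1) := by positivity
        linarith
    _ = ‖coef G 1‖ * r + r ^ 2 * ∑ n ∈ range N, ‖coef G (n + 2)‖ * r ^ n := by
        rw [Finset.sum_range_succ', Finset.mul_sum, add_comm]
        congr 1
        · simp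
        · apply Finset.sum_congr rfl
          intro n _
          rw [pow_succ, pow_succ]
          ring
    _ ≤ t := hm

end Pool.Agent.R218.Bohr
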