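import Mathlib

open Complex Metric Set Filter Topology

namespace Pool.Agent.R218.Bohr

theorem exists_mult {F H : ℂ → ℂ} (hF : DifferentiableOn ℂ F (ball 0 1))
    (hH : DifferentiableOn ℂ H (ball 0 1))
    (hle : ∀ z ∈ ball (0:ℂ) 1, ‖F z‖ ≤ ‖H z‖) :
    ∃ ω : ℂ → ℂ, DifferentiableOn ℂ ω (ball 0 1) ∧ (∀ z ∈ ball (0:ℂ) 1, ‖ω z‖ ≤ 1) ∧
      ∀ z ∈ ball (0:ℂ) 1, F z = ω z * H z := by
  by_cases h0 : ∀ z ∈ ball (0:ℂ) 1, H z = 0
  · refine ⟨fun _ => 0, differentiableOn_const _, by simp, fun z hz => ?_⟩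
    have := hle z hz
    rw [h0 z hz, norm_zero] at this
    simpa using norm_le_zero_iff.1 this
  have hiso : ∀ z ∈ ball (0:ℂ) 1, ∀ᶠ w in 𝓝[≠] z, H w ≠ 0 := by
    intro z hz
    have hA : AnalyticOnNhd ℂ H (ball 0 1) := hH.analyticOnNhd isOpen_ball
    rcases (hA z hz).eventually_eq_zero_or_eventually_ne_zero with h | h
    · exfalso
      apply h0
      exact hA.eqOn_zero_of_preconnected_of_eventuallyEq_zero
        (convex_ball (0:ℂ) 1).isPreconnected hz h
    · exact h
  let q : ℂ → ℂ := fun z => F z / H z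
  let ω : ℂ → ℂ := fun z => if H z = 0 then limUnder (𝓝[≠] z) q else q z
  have hωd : DifferentiableOn ℂ ω (ball 0 1) := by
    intro z hz
    apply DifferentiableAt.differentiableWithinAt
    have hFz := (hF z hz).differentiableAt (isOpen_ball.mem_nhds hz)
    have hHz := (hH z hz).differentiableAt (isOpen_ball.mem_nhds hz)
    by_cases hz0 : H z = 0
    · -- removable
      have h1 : ∀ᶠ w in 𝓝 z, w ≠ z → H w ≠ 0 := eventually_nhdsWithin_iff.1 (hiso z hz)
      have h2 : ∀ᶠ w in 𝓝 z, w ∈ ball (0:ℂ) 1 ∧ (w ≠ z → H w ≠ 0) :=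
        (isOpen_ball.eventually_mem hz).and h1
      obtain ⟨s, hs, hso, hzs⟩ := _root_.eventually_nhds_iff.1 h2
      have hsn : s ∈ 𝓝 z := hso.mem_nhds hzs
      have hd : DifferentiableOn ℂ q (s \ {z}) := by
        intro w hw
        have hw1 := hs w hw.1
        have hwz : w ≠ z := by simpa using hw.2
        have hH1 := hw1.2 hwz
        have a1 := (hF w hw1.1).differentiableAt (isOpen_ball.mem_nhds hw1.1)
        have a2 := (hH w hw1.1).differentiableAt (isOpen_ball.mem_nhds hw1.1)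
        exact (a1.div a2 hH1).differentiableWithinAt
      have hb : BddAbove (norm ∘ q '' (s \ {z})) := by
        refine ⟨1, ?_⟩
        rintro _ ⟨w, hw, rfl⟩
        have hw1 := hs w hw.1
        have hwz : w ≠ z := by simpa using hw.2
        have hH1 := hw1.2 hwz
        simp only [Function.comp, q, norm_div]
        exact div_le_one_of_le₀ (hle w hw1.1) (norm_nonneg _)
      have hu := differentiableOn_update_limUnder_of_bddAbove hsn hd hb
      have hu1 := (hu z hzs).differentiableAt hsn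
      refine hu1.congr_of_eventuallyEq ?_
      filter_upwards [hsn] with w hw
      by_cases hwz : w = z
      · subst hwz
        simp [ω, hz0]
      · have := (hs w hw).2 hwz
        simp [ω, this, Function.update_of_ne hwz]
    · have hne : ∀ᶠ w in 𝓝 z, H w ≠ 0 := hHz.continuousAt.eventually_ne hz0
      refine (hFz.div hHz hz0).congr_of_eventuallyEq ?_
      filter_upwards [hne] with w hw
      simp [ω, hw, q]
  have hne1 : ∀ z ∈ ball (0:ℂ) 1, H z ≠ 0 → ‖ω z‖ ≤ 1 := by
    intro z hz h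
    simp only [ω, h, if_false, q, norm_div]
    exact div_le_one_of_le₀ (hle z hz) (norm_nonneg _)
  refine ⟨ω, hωd, fun z hz => ?_, fun z hz => ?_⟩
  · by_cases h : H z = 0
    · have hc : ContinuousAt ω z := ((hωd z hz).differentiableAt (isOpen_ball.mem_nhds hz)).continuousAt
      have ht : Tendsto (fun w => ‖ω w‖) (𝓝[≠] z) (𝓝 ‖ω z‖) :=
        (hc.norm.tendsto).mono_left nhdsWithin_le_nhds
      refine le_of_tendsto ht ?_
      have hb : ∀ᶠ w in 𝓝[≠] z, w ∈ ball (0:ℂ) 1 :=
        (isOpen_ball.eventually_mem hz).filter_mono nhdsWithin_le_nhds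
      filter_upwards [hiso z hz, hb] with w hw hwb
      exact hne1 w hwb hw
    · exact hne1 z hz h
  · by_cases h : H z = 0
    · have := hle z hz
      rw [h, norm_zero] at this
      rw [h, mul_zero]
      exact norm_le_zero_iff.1 this
    · simp only [ω, h, if_false, q]
      field_simp

theorem schwarz_pick {ω : ℂ → ℂ} (hd : DifferentiableOn ℂ ω (ball 0 1))
    (hb : ∀ z ∈ ball (0:ℂ) 1, ‖ω z‖ ≤ 1) {z : ℂ} (hz : z ∈ ball (0:ℂ) 1) :
    ‖ω z - ω 0‖ ≤ ‖z‖ * ‖1 - (starRingEnd ℂ) (ω 0) * ω z‖ := by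
  have h0 : (0:ℂ) ∈ ball (0:ℂ) 1 := by simp
  rcases (hb 0 h0).lt_or_eq with hc | hc
  · set c := ω 0 with hcdef
    have hden : ∀ w ∈ ball (0:ℂ) 1, 1 - (starRingEnd ℂ) c * ω w ≠ 0 := by
      intro w hw h
      have h1 : (starRingEnd ℂ) c * ω w = 1 := (sub_eq_zero.1 h).symm
      have h2 : ‖(starRingEnd ℂ) c * ω w‖ = 1 := by rw [h1]; simp
      rw [norm_mul, RCLike.norm_conj] at h2
      have := hb w hw
      nlinarith [norm_nonneg c, norm_nonneg (ω w)]
    let φ : ℂ → ℂ := fun w => (ω w - c) / (1 - (starRingEnd ℂ) c * ω w)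
    have hφd : DifferentiableOn ℂ φ (ball 0 1) := by
      apply DifferentiableOn.div
      · exact hd.sub_const c
      · exact (differentiableOn_const _).sub (hd.const_mul _)
      · exact hden
    have hφm : MapsTo φ (ball 0 1) (closedBall 0 1) := by
      intro w hw
      rw [mem_closedBall_zero_iff]
      simp only [φ, norm_div]
      apply div_le_one_of_le₀ _ (norm_nonneg _)
      have hw1 := hb w hw
      have key : ‖ω w - c‖ ^ 2 ≤ ‖1 - (starRingEnd ℂ) c * ω w‖ ^ 2 := by
        have e1 : ‖1 - (starRingEnd ℂ) c * ω w‖ ^ 2 - ‖ω w - c‖ ^ 2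
            = (1 - ‖c‖ ^ 2) * (1 - ‖ω w‖ ^ 2) := by
          simp only [← Complex.normSq_eq_norm_sq, Complex.normSq_apply, Complex.sub_re,
            Complex.sub_im, Complex.mul_re, Complex.mul_im, Complex.conj_re, Complex.conj_im,
            Complex.one_re, Complex.one_im]
          ring
        have : 0 ≤ (1 - ‖c‖ ^ 2) * (1 - ‖ω w‖ ^ 2) := by
          apply mul_nonneg
          · nlinarith [norm_nonneg c]
          · nlinarith [norm_nonneg (ω w)]
        linarith
      exact le_of_sq_le_sq key (norm_nonneg _)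
    have hφ0 : φ 0 = 0 := by simp [φ, hcdef]
    have hs := norm_le_norm_of_mapsTo_ball hφd hφm hφ0 (mem_ball_zero_iff.1 hz)
    have hdz := hden z hz
    have : ω z - c = φ z * (1 - (starRingEnd ℂ) c * ω z) := by
      simp only [φ]
      rw [div_mul_cancel₀ _ hdz]
    rw [this, norm_mul]
    exact mul_le_mul_of_nonneg_right hs (norm_nonneg _)
  · have hmax : IsMaxOn (norm ∘ ω) (ball 0 1) 0 := by
      intro w hw
      change ‖ω w‖ ≤ ‖ω 0‖
      rw [hc]
      exact hb w hw
    have := eqOn_of_isPreconnected_of_isMaxOn_norm (convex_ball (0:ℂ) 1).isPreconnected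
      isOpen_ball hd h0 hmax hz
    simp only [Function.const] at this
    rw [this]
    simp
    positivity

theorem pointwise {F H : ℂ → ℂ} {ω : ℂ → ℂ} (hd : DifferentiableOn ℂ ω (ball 0 1))
    (hb : ∀ z ∈ ball (0:ℂ) 1, ‖ω z‖ ≤ 1) (hF : ∀ z ∈ ball (0:ℂ) 1, F z = ω z * H z)
    {z : ℂ} (hz : z ∈ ball (0:ℂ) 1) :
    ‖F z - ω 0 * H z‖ ≤ ‖z * (H z - (starRingEnd ℂ) (ω 0) * F z)‖ := by
  rw [hF z hz]
  have e1 : ω z * H z - ω 0 * H z = (ω z - ω 0) * H z := by ring
  have e2 : z * (H z - (starRingEnd ℂ) (ω 0) * (ω z * H z))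
      = (z * (1 - (starRingEnd ℂ) (ω 0) * ω z)) * H z := by ring
  rw [e1, e2, norm_mul, norm_mul]
  apply mul_le_mul_of_nonneg_right _ (norm_nonneg _)
  rw [norm_mul]
  exact schwarz_pick hd hb hz

end Pool.Agent.R218.Bohr
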