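import Pool.Agent.R218.Bohr.Weights
import Pool.Agent.R218.Bohr.Omega

open Complex Metric Set Filter Topology
open Finset (range)

namespace Pool.Agent.R218.Bohr

lemma weights_le {A B : ℕ → ℝ} (hA0 : ∀ n, 0 ≤ A n) (hB0 : ∀ n, 0 ≤ B n)
    (hA : ∀ s : ℝ, 0 ≤ s → s < 1 → Summable (fun n => A n * s ^ n))
    (hB : ∀ s : ℝ, 0 ≤ s → s < 1 → Summable (fun n => B n * s ^ n))
    (hle : ∀ s : ℝ, 0 ≤ s → s < 1 → ∑' n, B n * s ^ n ≤ ∑' n, A n * s ^ n)
    {s : ℝ} (h0 : 0 ≤ s) (h1 : s < 1) :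
    ∑' n, B n / ((n : ℝ) + 1) ^ 2 * s ^ n ≤ ∑' n, A n / ((n : ℝ) + 1) ^ 2 * s ^ n := by
  have hs : ∀ s : ℝ, 0 ≤ s → s < 1 → Summable (fun n => |A n - B n| * s ^ n) := by
    intro s h0 h1
    refine Summable.of_nonneg_of_le (fun n => by positivity) (fun n => ?_)
      ((hA s h0 h1).add (hB s h0 h1))
    rw [← add_mul]
    apply mul_le_mul_of_nonneg_right _ (by positivity)
    have := abs_sub (A n) (B n)
    rw [abs_of_nonneg (hA0 n), abs_of_nonneg (hB0 n)] at this
    exact this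
  have hp : ∀ s : ℝ, 0 ≤ s → s < 1 → 0 ≤ ∑' n, (A n - B n) * s ^ n := by
    intro s h0 h1
    have : ∑' n, (A n - B n) * s ^ n = ∑' n, A n * s ^ n - ∑' n, B n * s ^ n := by
      rw [← (hA s h0 h1).tsum_sub (hB s h0 h1)]
      exact tsum_congr fun n => by ring
    rw [this]
    linarith [hle s h0 h1]
  have hs2 : ∀ s : ℝ, 0 ≤ s → s < 1 → Summable (fun n : ℕ => |(A n - B n) / ((n : ℝ) + 1)| * s ^ n) := by
    intro s h0 h1
    refine Summable.of_nonneg_of_le (fun n => by positivity) (fun n => ?_) (hs s h0 h1)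
    apply mul_le_mul_of_nonneg_right _ (by positivity)
    rw [abs_div]
    apply div_le_self (abs_nonneg _)
    rw [abs_of_nonneg (by positivity)]
    have : (0:ℝ) ≤ n := Nat.cast_nonneg n
    linarith
  have h3 := integrate_nonneg hs2 (fun s h0 h1 => integrate_nonneg hs hp h0 h1) h0 h1
  have hA2 : Summable (fun n : ℕ => A n / ((n : ℝ) + 1) ^ 2 * s ^ n) := by
    refine Summable.of_nonneg_of_le (fun n => by have := hA0 n; positivity) (fun n => ?_) (hA s h0 h1)
    apply mul_le_mul_of_nonneg_right _ (by positivity)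
    apply div_le_self (hA0 n)
    have : (0:ℝ) ≤ n := Nat.cast_nonneg n
    nlinarith
  have hB2 : Summable (fun n : ℕ => B n / ((n : ℝ) + 1) ^ 2 * s ^ n) := by
    refine Summable.of_nonneg_of_le (fun n => by have := hB0 n; positivity) (fun n => ?_) (hB s h0 h1)
    apply mul_le_mul_of_nonneg_right _ (by positivity)
    apply div_le_self (hB0 n)
    have : (0:ℝ) ≤ n := Nat.cast_nonneg n
    nlinarith
  have h4 : ∑' n : ℕ, (A n - B n) / ((n : ℝ) + 1) / ((n : ℝ) + 1) * s ^ n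
      = ∑' n : ℕ, A n / ((n : ℝ) + 1) ^ 2 * s ^ n - ∑' n : ℕ, B n / ((n : ℝ) + 1) ^ 2 * s ^ n := by
    rw [← hA2.tsum_sub hB2]
    refine tsum_congr fun n => ?_
    have : ((n : ℝ) + 1) ≠ 0 := by positivity
    field_simp
  rw [h4] at h3
  linarith

/-- the key inequality between the Taylor coefficients of `h` and `G` when `G' = ω h'` -/
theorem key {h G ω : ℂ → ℂ} (hh : DifferentiableOn ℂ h (ball 0 1))
    (hG : DifferentiableOn ℂ G (ball 0 1)) (hωd : DifferentiableOn ℂ ω (ball 0 1))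
    (hωb : ∀ z ∈ ball (0:ℂ) 1, ‖ω z‖ ≤ 1)
    (hω : ∀ z ∈ ball (0:ℂ) 1, deriv G z = ω z * deriv h z) {s : ℝ} (h0 : 0 ≤ s) (h1 : s < 1) :
    ∑' n, ‖coef G (n + 1) - ω 0 * coef h (n + 1)‖ ^ 2 * s ^ n
      ≤ ∑' n, ‖coef h (n + 1) - (starRingEnd ℂ) (ω 0) * coef G (n + 1)‖ ^ 2 * s ^ (n + 1) := by
  set c := ω 0 with hc
  have hdh : DifferentiableOn ℂ (deriv h) (ball 0 1) := hh.deriv isOpen_ball
  have hdG : DifferentiableOn ℂ (deriv G) (ball 0 1) := hG.deriv isOpen_ball
  have ph := isPS_coef hdh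
  have pG := isPS_coef hdG
  have p1 : IsPS (fun n => coef (deriv G) n - c * coef (deriv h) n)
      (fun z => deriv G z - c * deriv h z) := pG.sub (ph.const_mul c)
  have p2 := (ph.sub (pG.const_mul ((starRingEnd ℂ) c))).mul_id
  have d1 : DifferentiableOn ℂ (fun z => deriv G z - c * deriv h z) (ball 0 1) :=
    hdG.sub (hdh.const_mul c)
  have d2 : DifferentiableOn ℂ (fun z => z * (deriv h z - (starRingEnd ℂ) c * deriv G z)) (ball 0 1) :=
    differentiableOn_id.mul (hdh.sub (hdG.const_mul _))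
  have hpt : ∀ z ∈ ball (0:ℂ) 1, ‖deriv G z - c * deriv h z‖
      ≤ ‖z * (deriv h z - (starRingEnd ℂ) c * deriv G z)‖ :=
    fun z hz => pointwise hωd hωb hω hz
  set A : ℕ → ℝ := fun n => (n : ℝ) ^ 2 * ‖coef h n - (starRingEnd ℂ) c * coef G n‖ ^ 2 with hAd
  set B : ℕ → ℝ := fun n => ((n : ℝ) + 1) ^ 2 * ‖coef G (n + 1) - c * coef h (n + 1)‖ ^ 2 with hBd
  have eB : ∀ n, ‖coef (deriv G) n - c * coef (deriv h) n‖ ^ 2 = B n := by
    intro n
    rw [coef_deriv, coef_deriv, hBd]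
    have : ((n:ℂ) + 1) * coef G (n + 1) - c * (((n:ℂ) + 1) * coef h (n + 1))
        = ((n : ℝ) + 1 : ℝ) * (coef G (n + 1) - c * coef h (n + 1)) := by
      push_cast; ring
    rw [this, norm_mul, mul_pow, Complex.norm_real, Real.norm_of_nonneg (by positivity)]
  have eA : ∀ n, ‖shift (fun n => coef (deriv h) n - (starRingEnd ℂ) c * coef (deriv G) n) n‖ ^ 2
      = A n := by
    intro n
    cases n with
    | zero => simp [hAd]
    | succ m =>
      simp only [shift_succ, coef_deriv, hAd]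
      have : ((m:ℂ) + 1) * coef h (m + 1) - (starRingEnd ℂ) c * (((m:ℂ) + 1) * coef G (m + 1))
          = ((m : ℝ) + 1 : ℝ) * (coef h (m + 1) - (starRingEnd ℂ) c * coef G (m + 1)) := by
        push_cast; ring
      rw [this, norm_mul, mul_pow, Complex.norm_real, Real.norm_of_nonneg (by positivity)]
      push_cast
      ring
  have hA0 : ∀ n, 0 ≤ A n := fun n => by simp only [hAd]; positivity
  have hB0 : ∀ n, 0 ≤ B n := fun n => by simp only [hBd]; positivity
  have hA : ∀ s : ℝ, 0 ≤ s → s < 1 → Summable (fun n => A n * s ^ n) := by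
    intro s h0 h1
    refine (p2.summable_sq h0 h1).congr fun n => ?_
    rw [← eA n]
  have hB : ∀ s : ℝ, 0 ≤ s → s < 1 → Summable (fun n => B n * s ^ n) := by
    intro s h0 h1
    refine (p1.summable_sq h0 h1).congr fun n => ?_
    rw [← eB n]
  have hle : ∀ s : ℝ, 0 ≤ s → s < 1 → ∑' n, B n * s ^ n ≤ ∑' n, A n * s ^ n := by
    intro s h0 h1
    have := p1.le_of_norm_le p2 d1 d2 hpt h0 h1
    calc ∑' n, B n * s ^ n = _ := tsum_congr fun n => by rw [← eB n]
      _ ≤ _ := this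
      _ = _ := tsum_congr fun n => by rw [← eA n]
  have hw := weights_le hA0 hB0 hA hB hle h0 h1
  have e1 : ∑' n : ℕ, B n / ((n : ℝ) + 1) ^ 2 * s ^ n
      = ∑' n, ‖coef G (n + 1) - c * coef h (n + 1)‖ ^ 2 * s ^ n := by
    refine tsum_congr fun n => ?_
    simp only [hBd]
    have : ((n : ℝ) + 1) ≠ 0 := by positivity
    field_simp
  rw [e1] at hw
  refine hw.trans ?_
  -- compare the right side
  have hq : Summable (fun n => ‖coef h (n + 1) - (starRingEnd ℂ) c * coef G (n + 1)‖ ^ 2 * s ^ (n + 1)) := by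
    have := ((isPS_coef hh).sub ((isPS_coef hG).const_mul ((starRingEnd ℂ) c))).summable_sq h0 h1
    exact (summable_nat_add_iff 1).2 this
  have hA2 : Summable (fun n : ℕ => A n / ((n : ℝ) + 1) ^ 2 * s ^ n) := by
    refine Summable.of_nonneg_of_le (fun n => by have := hA0 n; positivity) (fun n => ?_) (hA s h0 h1)
    apply mul_le_mul_of_nonneg_right _ (by positivity)
    apply div_le_self (hA0 n)
    have : (0:ℝ) ≤ n := Nat.cast_nonneg n
    nlinarith
  rw [hA2.tsum_eq_zero_add]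
  have z0 : A 0 / (((0:ℕ) : ℝ) + 1) ^ 2 * s ^ 0 = 0 := by simp [hAd]
  rw [z0, zero_add]
  refine ((summable_nat_add_iff 1).2 hA2).tsum_le_tsum (fun n => ?_) hq
  apply mul_le_mul_of_nonneg_right _ (by positivity)
  rw [div_le_iff₀ (by positivity)]
  simp only [hAd]
  rw [mul_comm]
  apply mul_le_mul_of_nonneg_left _ (by positivity)
  push_cast
  have : (0:ℝ) ≤ n := Nat.cast_nonneg n
  nlinarith

/-- the classical coefficient inequality for a bounded function vanishing at the origin -/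
theorem schur_tail {h : ℂ → ℂ} (hh : DifferentiableOn ℂ h (ball 0 1)) (h00 : h 0 = 0)
    (hb : ∀ z ∈ ball (0:ℂ) 1, ‖h z‖ ≤ 1) {s : ℝ} (h0 : 0 < s) (h1 : s < 1) :
    (∑' n, ‖coef h (n + 2)‖ ^ 2 * s ^ n) * (1 - ‖coef h 1‖ ^ 2 * s) ≤ (1 - ‖coef h 1‖ ^ 2) ^ 2 := by
  set f : ℂ → ℂ := dslope h 0 with hf
  have hfd : DifferentiableOn ℂ f (ball 0 1) :=
    (differentiableOn_dslope (isOpen_ball.mem_nhds (by simp))).2 hh
  have hfb : ∀ z ∈ ball (0:ℂ) 1, ‖f z‖ ≤ 1 := by
    intro z hz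
    have hm : MapsTo h (ball 0 1) (closedBall (h 0) 1) := by
      intro w hw
      rw [h00, mem_closedBall_zero_iff]
      exact hb w hw
    simpa using Complex.norm_dslope_le_div_of_mapsTo_ball hh hm hz
  have hmul : ∀ z ∈ ball (0:ℂ) 1, z * f z = h z := by
    intro z _
    have := sub_smul_dslope h 0 z
    simpa [h00] using this
  have pf := isPS_coef hfd
  have hco : ∀ n, coef f n = coef h (n + 1) := by
    intro n
    have := (pf.mul_id.congr hmul).unique (isPS_coef hh) (n + 1)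
    simpa using this
  have hf0 : f 0 = coef h 1 := by
    have := pf 0 (by simp)
    have h2 := hasSum_single (f := fun n => coef f n * (0:ℂ) ^ n) 0 (fun n hn => by simp [hn])
    rw [← hco 0, this.unique h2]
    simp
  have hx1 : ‖coef h 1‖ ≤ 1 := by rw [← hf0]; exact hfb 0 (by simp)
  -- the constant function
  have pc : ∀ c : ℂ, IsPS (fun n => if n = 0 then c else 0) (fun _ => c) := by
    intro c z hz
    have := hasSum_single (f := fun n : ℕ => (if n = 0 then c else 0) * z ^ n) 0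
      (fun n hn => by simp [hn])
    simpa using this
  have p1 : IsPS (fun n => coef f n - (if n = 0 then f 0 else 0)) (fun z => f z - f 0) :=
    pf.sub (pc (f 0))
  have p2 := ((pc 1).sub (pf.const_mul ((starRingEnd ℂ) (f 0)))).mul_id
  have d1 : DifferentiableOn ℂ (fun z => f z - f 0) (ball 0 1) := hfd.sub_const _
  have d2 : DifferentiableOn ℂ (fun z => z * (1 - (starRingEnd ℂ) (f 0) * f z)) (ball 0 1) :=
    differentiableOn_id.mul ((differentiableOn_const _).sub (hfd.const_mul _))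
  have hpt : ∀ z ∈ ball (0:ℂ) 1, ‖f z - f 0‖ ≤ ‖z * (1 - (starRingEnd ℂ) (f 0) * f z)‖ := by
    intro z hz
    rw [norm_mul]
    exact schwarz_pick hfd hfb hz
  have hle := p1.le_of_norm_le p2 d1 d2 hpt h0.le h1
  have s1 := p1.summable_sq h0.le h1
  have s2 := p2.summable_sq h0.le h1
  rw [s1.tsum_eq_zero_add, s2.tsum_eq_zero_add, ((summable_nat_add_iff 1).2 s2).tsum_eq_zero_add] at hle
  simp only [shift_zero, shift_succ, if_true, pow_zero, mul_one, norm_zero, ne_eq, OfNat.ofNat_ne_zero, not_false_eq_true,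
    zero_pow, zero_add, Nat.add_eq_zero_iff, one_ne_zero, and_false, if_false, sub_zero, zero_sub,
    norm_neg, norm_mul, RCLike.norm_conj, pow_one] at hle
  set x := ‖coef h 1‖ ^ 2 with hx
  have hc0 : coef f 0 - f 0 = 0 := by rw [hco 0, hf0, sub_self]
  rw [hc0] at hle
  have hc1 : ‖1 - (starRingEnd ℂ) (f 0) * coef f 0‖ = 1 - x := by
    rw [hco 0, zero_add, hf0, Complex.conj_mul', ← Complex.ofReal_pow, ← hx,
      ← Complex.ofReal_one, ← Complex.ofReal_sub, Complex.norm_real, Real.norm_of_nonneg]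
    have : x ≤ 1 := by rw [hx]; nlinarith [norm_nonneg (coef h 1)]
    linarith
  rw [hc1] at hle
  set T := ∑' n, ‖coef h (n + 2)‖ ^ 2 * s ^ n with hT
  have e1 : ∑' n, ‖coef f (n + 1)‖ ^ 2 * s ^ (n + 1) = s * T := by
    rw [hT, ← tsum_mul_left]
    refine tsum_congr fun n => ?_
    rw [hco, pow_succ]
    ring
  have e2 : ∑' n, (‖f 0‖ * ‖coef f (n + 1)‖) ^ 2 * s ^ (n + 1 + 1) = s * (x * (s * T)) := by
    rw [hT, ← tsum_mul_left, ← tsum_mul_left, ← tsum_mul_left]
    refine tsum_congr fun n => ?_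
    rw [hco, hf0, pow_succ, pow_succ, hx]
    ring
  rw [e1, e2] at hle
  simp only [norm_zero, ne_eq, OfNat.ofNat_ne_zero, not_false_eq_true, zero_pow, zero_add] at hle
  have h5 : s * (T * (1 - x * s)) ≤ s * (1 - x) ^ 2 := by nlinarith
  exact le_of_mul_le_mul_left h5 h0

end Pool.Agent.R218.Bohr
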