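import Pool.Agent.R218.Bohr.Upper

open Complex Metric Set Filter Topology
open Finset (range)

namespace Pool.Agent.R218.Bohr

/-- the extremal function -/
noncomputable def ext (a : ℝ) (z : ℂ) : ℂ := z * (z - a) / (1 - a * z)

/-- its coefficients -/
noncomputable def extc (a : ℝ) : ℕ → ℂ
  | 0 => 0
  | 1 => -(a : ℂ)
  | (n + 2) => (1 - (a : ℂ) ^ 2) * (a : ℂ) ^ n

lemma one_sub_ne {a : ℝ} (ha0 : 0 < a) (ha1 : a < 1) {z : ℂ} (hz : z ∈ ball (0:ℂ) 1) :
    (1 : ℂ) - a * z ≠ 0 := by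
  rw [mem_ball_zero_iff] at hz
  intro h
  have h1 : (a : ℂ) * z = 1 := (sub_eq_zero.1 h).symm
  have h2 : a * ‖z‖ = 1 := by
    have := congrArg norm h1
    rwa [norm_mul, Complex.norm_real, Real.norm_of_nonneg ha0.le, norm_one] at this
  nlinarith [norm_nonneg z]

lemma ext_diff {a : ℝ} (ha0 : 0 < a) (ha1 : a < 1) : DifferentiableOn ℂ (ext a) (ball 0 1) := by
  unfold ext
  apply DifferentiableOn.div
  · fun_prop
  · fun_prop
  · intro z hz
    exact one_sub_ne ha0 ha1 hz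

lemma ext_norm {a : ℝ} (ha0 : 0 < a) (ha1 : a < 1) {z : ℂ} (hz : z ∈ ball (0:ℂ) 1) :
    ‖ext a z‖ ≤ 1 := by
  have hne := one_sub_ne ha0 ha1 hz
  rw [mem_ball_zero_iff] at hz
  have hpos : 0 < ‖(1:ℂ) - a * z‖ := norm_pos_iff.2 hne
  unfold ext
  rw [norm_div, div_le_one hpos, norm_mul]
  have h1 : ‖z - a‖ ^ 2 ≤ ‖(1:ℂ) - a * z‖ ^ 2 := by
    have e : ‖(1:ℂ) - a * z‖ ^ 2 - ‖z - a‖ ^ 2 = (1 - a ^ 2) * (1 - ‖z‖ ^ 2) := by
      simp only [← Complex.normSq_eq_norm_sq, Complex.normSq_apply, Complex.sub_re,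
        Complex.sub_im, Complex.mul_re, Complex.mul_im, Complex.ofReal_re, Complex.ofReal_im,
        Complex.one_re, Complex.one_im]
      ring
    have : 0 ≤ (1 - a ^ 2) * (1 - ‖z‖ ^ 2) := by
      apply mul_nonneg
      · nlinarith
      · nlinarith [norm_nonneg z]
    linarith
  have h2 : ‖z - a‖ ≤ ‖(1:ℂ) - a * z‖ := le_of_sq_le_sq h1 hpos.le
  calc ‖z‖ * ‖z - a‖ ≤ 1 * ‖(1:ℂ) - a * z‖ := by
        apply mul_le_mul hz.le h2 (norm_nonneg _) zero_le_one
    _ = _ := one_mul _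

lemma ext_ps {a : ℝ} (ha0 : 0 < a) (ha1 : a < 1) : IsPS (extc a) (ext a) := by
  intro z hz
  have hne := one_sub_ne ha0 ha1 hz
  rw [mem_ball_zero_iff] at hz
  rw [← hasSum_nat_add_iff' 2]
  have hq : ‖(a : ℂ) * z‖ < 1 := by
    rw [norm_mul, Complex.norm_real, Real.norm_of_nonneg ha0.le]
    nlinarith [norm_nonneg z]
  have hg := (hasSum_geometric_of_norm_lt_one hq).mul_left ((1 - (a : ℂ) ^ 2) * z ^ 2)
  have e : ext a z - ∑ i ∈ range 2, extc a i * z ^ i = (1 - (a : ℂ) ^ 2) * z ^ 2 * (1 - a * z)⁻¹ := by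
    rw [Finset.sum_range_succ, Finset.sum_range_succ, Finset.sum_range_zero]
    simp only [extc, ext]
    rw [eq_mul_inv_iff_mul_eq₀ hne, sub_mul, div_mul_cancel₀ _ hne]
    ring
  rw [e]
  refine hg.congr_fun fun n => ?_
  simp only [extc]
  rw [mul_pow]
  ring

lemma coef_ext {a : ℝ} (ha0 : 0 < a) (ha1 : a < 1) (n : ℕ) : coef (ext a) n = extc a n :=
  (isPS_coef (ext_diff ha0 ha1)).unique (ext_ps ha0 ha1) n

lemma norm_extc_one {a : ℝ} (ha0 : 0 < a) : ‖extc a 1‖ = a := by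
  simp only [extc, norm_neg, Complex.norm_real, Real.norm_of_nonneg ha0.le]

lemma norm_extc_two {a : ℝ} (ha0 : 0 < a) (ha1 : a < 1) (n : ℕ) :
    ‖extc a (n + 2)‖ = (1 - a ^ 2) * a ^ n := by
  have h : (1 - (a : ℂ) ^ 2) * (a : ℂ) ^ n = (((1 - a ^ 2) * a ^ n : ℝ) : ℂ) := by push_cast; ring
  simp only [extc]
  rw [h, Complex.norm_real, Real.norm_of_nonneg]
  have : 0 ≤ 1 - a ^ 2 := by nlinarith
  positivity

theorem lower {K : ℝ} (hK : 1 < K) {r : ℝ} (hr : rK K < r) :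
    ∃ h g : ℂ → ℂ, HarmClass ((K - 1) / (K + 1)) h g ∧
      ENNReal.ofReal (supNorm h) < bohrSum h g r := by
  have hK0 : 0 < K := by linarith
  set k : ℝ := (K - 1) / (K + 1) with hk
  have hk0 : 0 < k := by
    rw [hk]
    apply div_pos <;> linarith
  set t : ℝ := (K + 1) / (2 * K) with ht
  have htk : t * (1 + k) = 1 := by
    rw [ht, hk]
    field_simp
    ring
  have ht1 : t < 1 := by
    rw [ht, div_lt_one (by positivity)]
    linarith
  have ht2 : 1 / 2 < t := by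
    rw [ht, div_lt_div_iff₀ (by norm_num) (by positivity)]
    linarith
  have hrq : (3 - t) ^ 2 = 8 * (1 - rK K ^ 2) := by
    have h1 := rK_sq hK
    rwa [← ht] at h1
  have hR0 : 0 < rK K := rK_pos hK
  set R := rK K with hR
  set a : ℝ := (1 + t) / (4 * R) with ha
  have ha0 : 0 < a := by positivity
  have haR : a * R = (1 + t) / 4 := by
    rw [ha]; field_simp
  have ha1 : a < 1 := by
    rw [ha, div_lt_one (by positivity)]
    have h1 : (1 + t) ^ 2 < (4 * R) ^ 2 := by nlinarith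
    exact lt_of_pow_lt_pow_left₀ 2 (by positivity) h1
  refine ⟨ext a, fun z => (k : ℂ) * ext a z, ⟨ext_diff ha0 ha1, (ext_diff ha0 ha1).const_mul _,
    by simp [ext], by simp [ext], ⟨1, ?_⟩, ?_⟩, ?_⟩
  · rintro x ⟨z, hz, rfl⟩
    exact ext_norm ha0 ha1 hz
  · intro z hz
    rw [deriv_cmul (ext_diff ha0 ha1) _ hz, norm_mul, Complex.norm_real,
      Real.norm_of_nonneg hk0.le]
  -- the supremum norm is at most one
  have hsup : supNorm (ext a) ≤ 1 := by
    unfold supNorm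
    apply csSup_le
    · exact ⟨_, 0, mem_ball_self one_pos, rfl⟩
    · rintro x ⟨z, hz, rfl⟩
      exact ext_norm ha0 ha1 hz
  -- the majorant at `R`
  have hS : HasSum (fun n => ‖extc a (n + 1)‖ * R ^ (n + 1)) t := by
    rw [← hasSum_nat_add_iff' 1]
    have hq0 : 0 ≤ a * R := by positivity
    have hq1 : a * R < 1 := by rw [haR]; linarith
    have hg := (hasSum_geometric_of_lt_one hq0 hq1).mul_left ((1 - a ^ 2) * R ^ 2)
    have hne : 1 - a * R ≠ 0 := by linarith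
    have e : t - ∑ i ∈ range 1, ‖extc a (i + 1)‖ * R ^ (i + 1)
        = (1 - a ^ 2) * R ^ 2 * (1 - a * R)⁻¹ := by
      rw [Finset.sum_range_one, norm_extc_one ha0, pow_one]
      have h2 : (1 - a ^ 2) * R ^ 2 = R ^ 2 - (a * R) ^ 2 := by ring
      rw [h2, haR]
      have h3 : (1 : ℝ) - (1 + t) / 4 ≠ 0 := by linarith
      have h4 : R ^ 2 = 1 - (3 - t) ^ 2 / 8 := by linarith
      rw [h4]
      rw [eq_mul_inv_iff_mul_eq₀ h3]
      ring
    rw [e]
    refine hg.congr_fun fun n => ?_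
    rw [norm_extc_two ha0 ha1, mul_pow]
    ring
  have hlim := hS.tendsto_sum_nat.const_mul (1 + k)
  rw [mul_comm (1 + k) t, htk] at hlim
  have hδ : 0 < (1 + k) * (a * (r - R)) := by
    have : 0 < r - R := by linarith
    positivity
  have hev : ∀ᶠ N in atTop, 1 - (1 + k) * (a * (r - R))
      < (1 + k) * ∑ i ∈ range N, ‖extc a (i + 1)‖ * R ^ (i + 1) :=
    hlim.eventually_const_lt (by linarith)
  obtain ⟨N, hN1, hN2⟩ := (hev.and (eventually_ge_atTop 1)).exists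
  have hrpos : 0 < r := hR0.trans hr
  -- finite sum at `r`
  have hcmp : (∑ i ∈ range N, ‖extc a (i + 1)‖ * R ^ (i + 1)) + a * (r - R)
      ≤ ∑ i ∈ range N, ‖extc a (i + 1)‖ * r ^ (i + 1) := by
    obtain ⟨m, rfl⟩ : ∃ m, N = m + 1 := ⟨N - 1, by omega⟩
    rw [Finset.sum_range_succ', Finset.sum_range_succ', norm_extc_one ha0, pow_one, pow_one]
    have : ∑ i ∈ range m, ‖extc a (i + 1 + 1)‖ * R ^ (i + 1 + 1)
        ≤ ∑ i ∈ range m, ‖extc a (i + 1 + 1)‖ * r ^ (i + 1 + 1) := by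
      apply Finset.sum_le_sum
      intro i _
      gcongr
    linarith
  have hfin : 1 < ∑ n ∈ range N, (‖coef (ext a) (n + 1)‖
      + ‖coef (fun z => (k : ℂ) * ext a z) (n + 1)‖) * r ^ (n + 1) := by
    have e : ∑ n ∈ range N, (‖coef (ext a) (n + 1)‖
        + ‖coef (fun z => (k : ℂ) * ext a z) (n + 1)‖) * r ^ (n + 1)
        = (1 + k) * ∑ i ∈ range N, ‖extc a (i + 1)‖ * r ^ (i + 1) := by
      rw [Finset.mul_sum]
      apply Finset.sum_congr rfl
      intro n _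
      rw [coef_const_mul (ext_diff ha0 ha1), norm_mul, Complex.norm_real,
        Real.norm_of_nonneg hk0.le, coef_ext ha0 ha1]
      ring
    rw [e]
    have h1 : (1 + k) * ((∑ i ∈ range N, ‖extc a (i + 1)‖ * R ^ (i + 1)) + a * (r - R))
        ≤ (1 + k) * ∑ i ∈ range N, ‖extc a (i + 1)‖ * r ^ (i + 1) :=
      mul_le_mul_of_nonneg_left hcmp (by linarith)
    linarith
  calc ENNReal.ofReal (supNorm (ext a)) ≤ ENNReal.ofReal 1 := ENNReal.ofReal_le_ofReal hsup
    _ < ENNReal.ofReal (∑ n ∈ range N, (‖coef (ext a) (n + 1)‖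
      + ‖coef (fun z => (k : ℂ) * ext a z) (n + 1)‖) * r ^ (n + 1)) := by
        rw [ENNReal.ofReal_lt_ofReal_iff_of_nonneg zero_le_one]
        exact hfin
    _ = ∑ n ∈ range N, ENNReal.ofReal ((‖coef (ext a) (n + 1)‖
      + ‖coef (fun z => (k : ℂ) * ext a z) (n + 1)‖) * r ^ (n + 1)) := by
        rw [ENNReal.ofReal_sum_of_nonneg (fun n _ => by positivity)]
    _ ≤ bohrSum (ext a) (fun z => (k : ℂ) * ext a z) r := by
        unfold bohrSum
        exact ENNReal.sum_le_tsum _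

end Pool.Agent.R218.Bohr
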