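import Mathlib

open Complex Metric Set Filter Topology
open Finset (range)

namespace Pool.Agent.R218.Bohr

/-- `f` is the sum of the power series with coefficients `a` on the open unit disc. -/
def IsPS (a : ℕ → ℂ) (f : ℂ → ℂ) : Prop :=
  ∀ z ∈ ball (0:ℂ) 1, HasSum (fun n => a n * z ^ n) (f z)

/-- mean value property, real part -/
lemma avg_re (Q : ℂ → ℂ) (r : ℝ) (hc : ContinuousOn Q (sphere 0 |r|))
    (hQ : DiffContOnCl ℂ Q (ball 0 |r|)) :
    Real.circleAverage (fun z => (Q z).re) 0 r = (Q 0).re := by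
  have hi : CircleIntegrable Q 0 r := hc.circleIntegrable'
  have h1 := hQ.circleAverage
  have h2 := Complex.reCLM.circleAverage_comp_comm hi
  rw [h1] at h2
  exact h2

lemma circ_int_cont (f : ℂ → ℝ) (hf : Continuous f) (r : ℝ) : CircleIntegrable f 0 r :=
  ContinuousOn.circleIntegrable' hf.continuousOn

lemma avg_add3 (f g : ℂ → ℝ) (hf : Continuous f) (hg : Continuous g) (c r : ℝ) :
    Real.circleAverage (fun z => f z + g z + c) 0 r
      = Real.circleAverage f 0 r + Real.circleAverage g 0 r + c := by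
  have h1 := Real.circleAverage_fun_add (circ_int_cont _ (hf.add hg) r)
    (circ_int_cont (fun _ => c) continuous_const r)
  have h2 := Real.circleAverage_fun_add (circ_int_cont _ hf r) (circ_int_cont _ hg r)
  rw [Real.circleAverage_const] at h1
  simp only [Pi.add_apply] at h1 h2 ⊢
  rw [h1, ← h2]
  rfl

lemma parseval_fin (p : ℕ → ℂ) (r : ℝ) (N : ℕ) :
    Real.circleAverage (fun z => ‖∑ n ∈ range N, p n * z ^ n‖ ^ 2) 0 r
      = ∑ n ∈ range N, ‖p n‖ ^ 2 * (r ^ 2) ^ n := by
  induction N with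
  | zero =>
    simp only [Finset.range_zero, Finset.sum_empty, norm_zero]
    rw [Real.circleAverage_const]
    simp
  | succ N ih =>
    rw [Finset.sum_range_succ (n := N) (f := fun n => ‖p n‖ ^ 2 * (r ^ 2) ^ n), ← ih]
    set Q : ℂ → ℂ := fun z => p N * ∑ n ∈ range N, (starRingEnd ℂ) (p n) * ((r : ℂ) ^ 2) ^ n * z ^ (N - n) with hQ
    have hQd : Differentiable ℂ Q := by
      rw [hQ]
      fun_prop
    have hQ0 : Q 0 = 0 := by
      rw [hQ]
      simp only
      rw [Finset.sum_eq_zero, mul_zero]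
      intro n hn
      have : N - n ≠ 0 := by
        have := Finset.mem_range.mp hn
        omega
      rw [zero_pow this, mul_zero]
    have havg : Real.circleAverage (fun z => (Q z).re) 0 r = 0 := by
      rw [avg_re Q r hQd.continuous.continuousOn hQd.diffContOnCl, hQ0]
      simp
    have hpt : Set.EqOn (fun z : ℂ => ‖∑ n ∈ range (N + 1), p n * z ^ n‖ ^ 2)
        (fun z => (‖∑ n ∈ range N, p n * z ^ n‖ ^ 2 + 2 * (Q z).re) + ‖p N‖ ^ 2 * (r ^ 2) ^ N)
        (sphere 0 |r|) := by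
      intro z hz
      have hz1 : ‖z‖ = |r| := by simpa using hz
      have hz2 : (starRingEnd ℂ) z * z = (r : ℂ) ^ 2 := by
        rw [Complex.conj_mul', hz1]
        rw [← Complex.ofReal_pow, sq_abs, Complex.ofReal_pow]
      simp only
      rw [Finset.sum_range_succ]
      have h1 : (starRingEnd ℂ) (∑ n ∈ range N, p n * z ^ n) * (p N * z ^ N) = Q z := by
        rw [hQ]
        simp only
        rw [map_sum, Finset.sum_mul, Finset.mul_sum]
        apply Finset.sum_congr rfl
        intro n hn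
        have hn' : n < N := Finset.mem_range.mp hn
        rw [map_mul, map_pow, ← hz2, mul_pow]
        have : z ^ N = z ^ n * z ^ (N - n) := by
          rw [← pow_add]
          congr 1
          omega
        rw [this]
        ring
      have h2 : ∀ x y : ℂ, ‖x + y‖ ^ 2 = ‖x‖ ^ 2 + 2 * ((starRingEnd ℂ) x * y).re + ‖y‖ ^ 2 := by
        intro x y
        simp only [← Complex.normSq_eq_norm_sq, Complex.normSq_apply, Complex.mul_re,
          Complex.conj_re, Complex.conj_im, Complex.add_re, Complex.add_im]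
        ring
      rw [h2, h1, norm_mul, norm_pow, hz1, mul_pow, ← pow_mul, mul_comm N 2, pow_mul, sq_abs]
    rw [Real.circleAverage_congr_sphere hpt]
    have hc1 : Continuous (fun z : ℂ => ‖∑ n ∈ range N, p n * z ^ n‖ ^ 2) := by fun_prop
    have hc2 : Continuous (fun z : ℂ => 2 * (Q z).re) := by
      have := hQd.continuous
      fun_prop
    rw [avg_add3 _ _ hc1 hc2]
    have : Real.circleAverage (fun z : ℂ => 2 * (Q z).re) 0 r = 0 := by
      have h := Real.circleAverage_fun_smul (a := (2 : ℝ)) (f := fun z : ℂ => (Q z).re) (c := 0) (R := r)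
      simp only [smul_eq_mul] at h
      rw [h, havg]
      simp
    rw [this]
    ring

lemma IsPS.summable_norm {a : ℕ → ℂ} {f : ℂ → ℂ} (ha : IsPS a f) {r : ℝ} (h0 : 0 ≤ r)
    (h1 : r < 1) : Summable (fun n => ‖a n‖ * r ^ n) := by
  have hz : (r : ℂ) ∈ ball (0:ℂ) 1 := by
    rw [mem_ball_zero_iff, Complex.norm_real, Real.norm_of_nonneg h0]; exact h1
  have := (ha _ hz).summable.norm
  refine this.congr fun n => ?_
  rw [norm_mul, norm_pow, Complex.norm_real, Real.norm_of_nonneg h0]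

lemma IsPS.hasSum_sq {a : ℕ → ℂ} {f : ℂ → ℂ} (ha : IsPS a f) {r : ℝ} (h0 : 0 ≤ r) (h1 : r < 1) :
    HasSum (fun n => ‖a n‖ ^ 2 * (r ^ 2) ^ n) (Real.circleAverage (fun z => ‖f z‖ ^ 2) 0 r) := by
  have hmem : ∀ θ : ℝ, ‖circleMap 0 r θ‖ = r := by
    intro θ
    rw [norm_circleMap_zero, abs_of_nonneg h0]
  have hsn := ha.summable_norm h0 h1
  set C := ∑' n, ‖a n‖ * r ^ n with hC
  have hbd : ∀ (N : ℕ) (z : ℂ), ‖z‖ = r → ‖∑ n ∈ range N, a n * z ^ n‖ ≤ C := by
    intro N z hz
    calc ‖∑ n ∈ range N, a n * z ^ n‖ ≤ ∑ n ∈ range N, ‖a n * z ^ n‖ := norm_sum_le _ _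
      _ = ∑ n ∈ range N, ‖a n‖ * r ^ n := by
          apply Finset.sum_congr rfl
          intro n _
          rw [norm_mul, norm_pow, hz]
      _ ≤ C := hsn.sum_le_tsum _ (fun n _ => by positivity)
  have key : Tendsto (fun N : ℕ => Real.circleAverage (fun z => ‖∑ n ∈ range N, a n * z ^ n‖ ^ 2) 0 r)
      atTop (𝓝 (Real.circleAverage (fun z => ‖f z‖ ^ 2) 0 r)) := by
    unfold Real.circleAverage
    apply Tendsto.const_smul
    apply intervalIntegral.tendsto_integral_filter_of_dominated_convergence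
      (fun _ => C ^ 2)
    · filter_upwards with N
      apply Continuous.aestronglyMeasurable
      fun_prop
    · filter_upwards with N
      filter_upwards with θ _
      rw [Real.norm_of_nonneg (by positivity)]
      apply pow_le_pow_left₀ (norm_nonneg _)
      exact hbd N _ (hmem θ)
    · exact intervalIntegrable_const
    · filter_upwards with θ _
      have hb : circleMap 0 r θ ∈ ball (0:ℂ) 1 := by
        rw [mem_ball_zero_iff, hmem]; exact h1
      exact ((ha _ hb).tendsto_sum_nat.norm).pow 2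
  have hsum : Tendsto (fun N : ℕ => ∑ n ∈ range N, ‖a n‖ ^ 2 * (r ^ 2) ^ n) atTop
      (𝓝 (Real.circleAverage (fun z => ‖f z‖ ^ 2) 0 r)) := by
    refine key.congr ?_
    intro N
    exact parseval_fin a r N
  exact (hasSum_iff_tendsto_nat_of_nonneg (fun n => by positivity) _).2 hsum

lemma IsPS.le_of_norm_le {a b : ℕ → ℂ} {f g : ℂ → ℂ} (ha : IsPS a f) (hb : IsPS b g)
    (hf : DifferentiableOn ℂ f (ball 0 1)) (hg : DifferentiableOn ℂ g (ball 0 1))
    (hle : ∀ z ∈ ball (0:ℂ) 1, ‖f z‖ ≤ ‖g z‖) {s : ℝ} (h0 : 0 ≤ s) (h1 : s < 1) :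
    ∑' n, ‖a n‖ ^ 2 * s ^ n ≤ ∑' n, ‖b n‖ ^ 2 * s ^ n := by
  have hr0 : 0 ≤ Real.sqrt s := Real.sqrt_nonneg s
  have hr1 : Real.sqrt s < 1 := by
    rw [Real.sqrt_lt' one_pos]; simpa using h1
  have e1 := ha.hasSum_sq hr0 hr1
  have e2 := hb.hasSum_sq hr0 hr1
  rw [Real.sq_sqrt h0] at e1 e2
  rw [e1.tsum_eq, e2.tsum_eq]
  have hsub : sphere (0:ℂ) |Real.sqrt s| ⊆ ball (0:ℂ) 1 := by
    intro z hz
    rw [mem_sphere_zero_iff_norm, abs_of_nonneg hr0] at hz
    rw [mem_ball_zero_iff, hz]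
    exact hr1
  apply Real.circleAverage_mono
  · exact ContinuousOn.circleIntegrable' ((hf.continuousOn.mono hsub).norm.pow 2)
  · exact ContinuousOn.circleIntegrable' ((hg.continuousOn.mono hsub).norm.pow 2)
  · intro z hz
    have := hle z (hsub hz)
    change ‖f z‖ ^ 2 ≤ ‖g z‖ ^ 2
    gcongr

lemma IsPS.summable_sq {a : ℕ → ℂ} {f : ℂ → ℂ} (ha : IsPS a f) {s : ℝ} (h0 : 0 ≤ s) (h1 : s < 1) :
    Summable (fun n => ‖a n‖ ^ 2 * s ^ n) := by
  have hr0 : 0 ≤ Real.sqrt s := Real.sqrt_nonneg s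
  have hr1 : Real.sqrt s < 1 := by
    rw [Real.sqrt_lt' one_pos]; simpa using h1
  have e1 := ha.hasSum_sq hr0 hr1
  rw [Real.sq_sqrt h0] at e1
  exact e1.summable

lemma IsPS.sub {a b : ℕ → ℂ} {f g : ℂ → ℂ} (ha : IsPS a f) (hb : IsPS b g) :
    IsPS (fun n => a n - b n) (fun z => f z - g z) := by
  intro z hz
  refine ((ha z hz).sub (hb z hz)).congr_fun fun n => ?_
  ring

lemma IsPS.const_mul {a : ℕ → ℂ} {f : ℂ → ℂ} (c : ℂ) (ha : IsPS a f) :
    IsPS (fun n => c * a n) (fun z => c * f z) := by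
  intro z hz
  refine ((ha z hz).mul_left c).congr_fun fun n => ?_
  ring

lemma IsPS.congr {a : ℕ → ℂ} {f g : ℂ → ℂ} (ha : IsPS a f)
    (h : ∀ z ∈ ball (0:ℂ) 1, f z = g z) : IsPS a g := by
  intro z hz
  rw [← h z hz]
  exact ha z hz

/-- shift of a sequence by one, with `0` in front -/
def shift (a : ℕ → ℂ) (n : ℕ) : ℂ := if n = 0 then 0 else a (n - 1)

@[simp] lemma shift_zero (a : ℕ → ℂ) : shift a 0 = 0 := by simp [shift]

@[simp] lemma shift_succ (a : ℕ → ℂ) (n : ℕ) : shift a (n + 1) = a n := by simp [shift]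

/-- multiplication by `z` shifts the coefficients -/
lemma IsPS.mul_id {a : ℕ → ℂ} {f : ℂ → ℂ} (ha : IsPS a f) :
    IsPS (shift a) (fun z => z * f z) := by
  intro z hz
  rw [← hasSum_nat_add_iff' 1]
  simp only [Finset.range_one, Finset.sum_singleton, shift_zero, shift_succ, zero_mul, sub_zero]
  refine ((ha z hz).mul_left z).congr_fun fun n => ?_
  rw [pow_succ]
  ring

lemma IsPS.unique {a b : ℕ → ℂ} {f : ℂ → ℂ} (ha : IsPS a f) (hb : IsPS b f) (n : ℕ) :
    a n = b n := by
  have h := ha.sub hb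
  have h2 := h.hasSum_sq (r := 1 / 2) (by norm_num) (by norm_num)
  have h3 : Real.circleAverage (fun z => ‖f z - f z‖ ^ 2) 0 (1 / 2) = 0 := by
    simp only [sub_self, norm_zero]
    rw [Real.circleAverage_const]
    simp
  rw [h3] at h2
  have h4 := (hasSum_zero_iff_of_nonneg (fun n => by positivity)).1 h2
  have h5 := congrFun h4 n
  simp only [Pi.zero_apply, mul_eq_zero] at h5
  rcases h5 with h5 | h5
  · have : ‖a n - b n‖ = 0 := by simpa using h5
    exact sub_eq_zero.1 (norm_eq_zero.1 this)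
  · exfalso
    have : (0:ℝ) < ((1 / 2) ^ 2) ^ n := by positivity
    linarith

/-- the `n`-th Taylor coefficient of `f` at the origin -/
noncomputable def coef (f : ℂ → ℂ) (n : ℕ) : ℂ := iteratedDeriv n f 0 / (n.factorial : ℂ)

lemma isPS_coef {f : ℂ → ℂ} (hf : DifferentiableOn ℂ f (ball 0 1)) : IsPS (coef f) f := by
  intro z hz
  refine (Complex.hasSum_taylorSeries_on_ball hf hz).congr_fun fun n => ?_
  simp only [coef, sub_zero, smul_eq_mul]
  field_simp

lemma coef_deriv (f : ℂ → ℂ) (n : ℕ) : coef (deriv f) n = ((n : ℂ) + 1) * coef f (n + 1) := by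
  have : ((n : ℂ) + 1) ≠ 0 := by exact_mod_cast Nat.succ_ne_zero n
  have h2 : ((n.factorial : ℕ) : ℂ) ≠ 0 := by exact_mod_cast n.factorial_ne_zero
  simp only [coef, iteratedDeriv_succ', Nat.factorial_succ, Nat.cast_mul, Nat.cast_add,
    Nat.cast_one]
  field_simp

end Pool.Agent.R218.Bohr
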