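import Pool.Agent.R218.Bohr.Key

open Complex Metric Set Filter Topology
open Finset (range)

namespace Pool.Agent.R218.Bohr

lemma alg {ρ γ x A B : ℝ} (hρ0 : 0 < ρ) (hρ1 : ρ < 1) (hγ0 : 0 ≤ γ) (hγ1 : γ ≤ 1)
    (hx0 : 0 ≤ x) (hx1 : x ≤ 1) (hA0 : 0 ≤ A) (hB0 : 0 ≤ B)
    (hA : A * (1 - x * ρ) ≤ (1 - x) ^ 2)
    (star : ∀ P Q : ℝ, 0 ≤ P → 0 ≤ Q →
      P * Q * ((1 - ρ * γ ^ 2) * B - (ρ - γ ^ 2) * A - (1 - γ ^ 2) ^ 2 * x)
        ≤ (1 - ρ) * γ * (P ^ 2 * A + Q ^ 2 * B)) :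
    B * (1 - γ ^ 2 * x * ρ) ≤ (1 - γ ^ 2 * x) ^ 2 := by
  rcases hγ1.lt_or_eq with hγ | hγ
  · have hγ2 : γ ^ 2 < 1 := by nlinarith
    have hg2 : 0 ≤ γ ^ 2 := sq_nonneg γ
    have hb0 : 0 ≤ γ ^ 2 * x := mul_nonneg hg2 hx0
    have hbx : γ ^ 2 * x ≤ x := by nlinarith
    have hb1 : γ ^ 2 * x < 1 := by nlinarith
    have hxr : x * ρ < 1 := by nlinarith
    rcases hx1.lt_or_eq with hx | hx
    · set X1 := 1 - γ ^ 2 * x with hX1
      set X0 := 1 - x with hX0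
      set D0 := 1 - x * ρ with hD0
      set D1 := 1 - γ ^ 2 * x * ρ with hD1
      have p1 : 0 < X1 := by linarith
      have p0 : 0 < X0 := by linarith
      have q0 : 0 < D0 := by linarith
      have q1 : 0 < D1 := by nlinarith
      have hX10 : X0 ≤ X1 := by linarith
      set K1 := (1 - ρ * γ ^ 2) * X1 - (1 - ρ) * γ * X0 with hK1
      have hK : 0 < K1 := by
        have : (1 - γ) * (1 + ρ * γ) * X1 ≤ K1 := by
          have e : K1 - (1 - γ) * (1 + ρ * γ) * X1 = (1 - ρ) * γ * (X1 - X0) := by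
            rw [hK1]; ring
          have : 0 ≤ (1 - ρ) * γ * (X1 - X0) :=
            mul_nonneg (mul_nonneg (by linarith) hγ0) (by linarith)
          linarith
        have : 0 < (1 - γ) * (1 + ρ * γ) * X1 := by
          apply mul_pos (mul_pos (by linarith) (by nlinarith)) p1
        linarith
      set W := (ρ - γ ^ 2) * X0 + (1 - ρ) * γ * X1 with hW
      have hW0 : 0 ≤ W := by
        have : W = (1 - γ) * (ρ + γ) * X0 + (1 - ρ) * γ * (X1 - X0) := by rw [hW]; ring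
        rw [this]
        apply add_nonneg
        · exact mul_nonneg (mul_nonneg (by linarith) (by linarith)) p0.le
        · exact mul_nonneg (mul_nonneg (by linarith) hγ0) (by linarith)
      have hst := star X1 X0 p1.le p0.le
      have h1 : X0 * (B * K1) ≤ X0 * X1 * ((1 - γ ^ 2) ^ 2 * x) + X1 * A * W := by
        have e : X0 * (B * K1) - (X0 * X1 * ((1 - γ ^ 2) ^ 2 * x) + X1 * A * W)
            = X1 * X0 * ((1 - ρ * γ ^ 2) * B - (ρ - γ ^ 2) * A - (1 - γ ^ 2) ^ 2 * x)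
              - (1 - ρ) * γ * (X1 ^ 2 * A + X0 ^ 2 * B) := by
          rw [hK1, hW]; ring
        linarith
      have h2 : X1 * A * W * D0 ≤ X1 * W * X0 ^ 2 := by
        calc X1 * A * W * D0 = X1 * W * (A * D0) := by ring
          _ ≤ X1 * W * X0 ^ 2 := mul_le_mul_of_nonneg_left hA (mul_nonneg p1.le hW0)
      have h3 : X0 * (B * K1 * D0) ≤ X0 * (X1 * ((1 - γ ^ 2) ^ 2 * x * D0 + X0 * W)) := by
        calc X0 * (B * K1 * D0) = X0 * (B * K1) * D0 := by ring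
          _ ≤ (X0 * X1 * ((1 - γ ^ 2) ^ 2 * x) + X1 * A * W) * D0 :=
              mul_le_mul_of_nonneg_right h1 q0.le
          _ = X0 * X1 * ((1 - γ ^ 2) ^ 2 * x) * D0 + X1 * A * W * D0 := by ring
          _ ≤ X0 * X1 * ((1 - γ ^ 2) ^ 2 * x) * D0 + X1 * W * X0 ^ 2 := by linarith
          _ = X0 * (X1 * ((1 - γ ^ 2) ^ 2 * x * D0 + X0 * W)) := by ring
      have h4 : B * K1 * D0 ≤ X1 * ((1 - γ ^ 2) ^ 2 * x * D0 + X0 * W) :=
        le_of_mul_le_mul_left h3 p0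
      have h5 : D1 * ((1 - γ ^ 2) ^ 2 * x * D0 + X0 * W) ≤ K1 * X1 * D0 := by
        have e : K1 * X1 * D0 - D1 * ((1 - γ ^ 2) ^ 2 * x * D0 + X0 * W)
            = (1 - γ) ^ 2 * (1 - ρ) * (1 - x) * (1 - γ ^ 2 * x) * (1 + x * γ * ρ) := by
          rw [hK1, hW, hX1, hX0, hD0, hD1]; ring
        have : 0 ≤ (1 - γ) ^ 2 * (1 - ρ) * (1 - x) * (1 - γ ^ 2 * x) * (1 + x * γ * ρ) := by
          have a1 : 0 ≤ 1 - ρ := by linarith
          have a2 : 0 ≤ 1 - x := by linarith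
          have a3 : 0 ≤ 1 - γ ^ 2 * x := by linarith
          have a4 : 0 ≤ 1 + x * γ * ρ := by positivity
          exact mul_nonneg (mul_nonneg (mul_nonneg (mul_nonneg (sq_nonneg _) a1) a2) a3) a4
        linarith
      have h6 : (K1 * D0) * (B * D1) ≤ (K1 * D0) * X1 ^ 2 := by
        calc (K1 * D0) * (B * D1) = B * K1 * D0 * D1 := by ring
          _ ≤ X1 * ((1 - γ ^ 2) ^ 2 * x * D0 + X0 * W) * D1 := mul_le_mul_of_nonneg_right h4 q1.le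
          _ = X1 * (D1 * ((1 - γ ^ 2) ^ 2 * x * D0 + X0 * W)) := by ring
          _ ≤ X1 * (K1 * X1 * D0) := mul_le_mul_of_nonneg_left h5 p1.le
          _ = (K1 * D0) * X1 ^ 2 := by ring
      exact le_of_mul_le_mul_left h6 (mul_pos hK q0)
    · -- x = 1
      subst hx
      have hA' : A = 0 := by
        have : A * (1 - 1 * ρ) ≤ 0 := by simpa using hA
        have h2 : 0 < 1 - 1 * ρ := by linarith
        nlinarith
      subst hA'
      by_contra hcon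
      push Not at hcon
      set M := (1 - ρ * γ ^ 2) * B - (1 - γ ^ 2) ^ 2 with hM
      have hMpos : 0 < M := by rw [hM]; nlinarith
      set L := (1 - ρ) * γ * B with hL
      have hL0 : 0 ≤ L := mul_nonneg (mul_nonneg (by linarith) hγ0) hB0
      have hst := star 1 (M / (2 * (L + 1))) zero_le_one (by positivity)
      have hq : 0 < M / (2 * (L + 1)) := by positivity
      have h1 : (M / (2 * (L + 1))) * M ≤ (M / (2 * (L + 1))) * ((M / (2 * (L + 1))) * L) := by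
        have : 1 * (M / (2 * (L + 1))) * ((1 - ρ * γ ^ 2) * B - (ρ - γ ^ 2) * 0 - (1 - γ ^ 2) ^ 2 * 1)
            = (M / (2 * (L + 1))) * M := by rw [hM]; ring
        rw [this] at hst
        calc (M / (2 * (L + 1))) * M ≤ _ := hst
          _ = _ := by rw [hL]; ring
      have h2 := le_of_mul_le_mul_left h1 hq
      have h3 : M / (2 * (L + 1)) * L < M := by
        rw [div_mul_eq_mul_div, div_lt_iff₀ (by positivity)]
        nlinarith
      linarith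
  · -- γ = 1
    subst hγ
    have hst : ∀ P Q : ℝ, 0 ≤ P → 0 ≤ Q → 0 ≤ (P - Q) * (P * A - Q * B) := by
      intro P Q hP hQ
      have := star P Q hP hQ
      have h2 : (1 - ρ) * (P * Q * (A + B)) ≤ (1 - ρ) * (P ^ 2 * A + Q ^ 2 * B) := by nlinarith
      have h3 := le_of_mul_le_mul_left h2 (by linarith)
      nlinarith
    have hBA : B ≤ A := by
      by_contra hcon
      push Not at hcon
      rcases hA0.eq_or_lt with h | h
      · have := hst 2 1 (by norm_num) (by norm_num)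
        rw [← h] at this
        linarith
      · have := hst (A + B) (2 * A) (by linarith) (by linarith)
        have e : (A + B - 2 * A) * ((A + B) * A - 2 * A * B) = -(A * (B - A) ^ 2) := by ring
        rw [e] at this
        have : 0 < A * (B - A) ^ 2 := mul_pos h (pow_pos (by linarith) 2)
        linarith
    have hxr : 0 < 1 - x * ρ := by nlinarith
    have : B * (1 - x * ρ) ≤ A * (1 - x * ρ) := mul_le_mul_of_nonneg_right hBA hxr.le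
    calc B * (1 - 1 ^ 2 * x * ρ) = B * (1 - x * ρ) := by ring
      _ ≤ (1 - x) ^ 2 := this.trans hA
      _ = (1 - 1 ^ 2 * x) ^ 2 := by ring

lemma term_ineq (a b c : ℂ) {ρ P Q : ℝ} (hρ1 : ρ < 1) (hP : 0 ≤ P) (hQ : 0 ≤ Q) :
    P * Q * ((1 - ρ * ‖c‖ ^ 2) * ‖b‖ ^ 2 - (ρ - ‖c‖ ^ 2) * ‖a‖ ^ 2)
        - (1 - ρ) * ‖c‖ * (P ^ 2 * ‖a‖ ^ 2 + Q ^ 2 * ‖b‖ ^ 2)
      ≤ P * Q * (‖b - c * a‖ ^ 2 - ρ * ‖a - (starRingEnd ℂ) c * b‖ ^ 2) := by
  set D : ℝ := (c * a * (starRingEnd ℂ) b).re with hD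
  have e1 : ‖b - c * a‖ ^ 2 = ‖b‖ ^ 2 - 2 * D + ‖c‖ ^ 2 * ‖a‖ ^ 2 := by
    rw [hD]
    simp only [← Complex.normSq_eq_norm_sq, Complex.normSq_apply, Complex.sub_re,
      Complex.sub_im, Complex.mul_re, Complex.mul_im, Complex.conj_re, Complex.conj_im]
    ring
  have e2 : ‖a - (starRingEnd ℂ) c * b‖ ^ 2 = ‖a‖ ^ 2 - 2 * D + ‖c‖ ^ 2 * ‖b‖ ^ 2 := by
    rw [hD]
    simp only [← Complex.normSq_eq_norm_sq, Complex.normSq_apply, Complex.sub_re,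
      Complex.sub_im, Complex.mul_re, Complex.mul_im, Complex.conj_re, Complex.conj_im]
    ring
  have hDle : D ≤ ‖c‖ * ‖a‖ * ‖b‖ := by
    calc D ≤ ‖c * a * (starRingEnd ℂ) b‖ := Complex.re_le_norm _
      _ = ‖c‖ * ‖a‖ * ‖b‖ := by rw [norm_mul, norm_mul, RCLike.norm_conj]
  rw [e1, e2]
  have hPQ : 0 ≤ P * Q := mul_nonneg hP hQ
  have h1 : 2 * (P * Q) * D ≤ 2 * (P * Q) * (‖c‖ * ‖a‖ * ‖b‖) :=
    mul_le_mul_of_nonneg_left hDle (by positivity)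
  have h2 : 2 * (P * Q) * (‖c‖ * ‖a‖ * ‖b‖) ≤ ‖c‖ * (P ^ 2 * ‖a‖ ^ 2 + Q ^ 2 * ‖b‖ ^ 2) := by
    have : 0 ≤ ‖c‖ * (P * ‖a‖ - Q * ‖b‖) ^ 2 := by positivity
    nlinarith
  have h3 : (1 - ρ) * (2 * (P * Q) * D) ≤ (1 - ρ) * (‖c‖ * (P ^ 2 * ‖a‖ ^ 2 + Q ^ 2 * ‖b‖ ^ 2)) :=
    mul_le_mul_of_nonneg_left (h1.trans h2) (by linarith)
  nlinarith

/-- the sharp tail inequality for functions `G` with `|G'| ≤ |h'|` -/
theorem tail {h G : ℂ → ℂ} (hh : DifferentiableOn ℂ h (ball 0 1))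
    (hG : DifferentiableOn ℂ G (ball 0 1)) (h00 : h 0 = 0)
    (hb : ∀ z ∈ ball (0:ℂ) 1, ‖h z‖ ≤ 1)
    (hle : ∀ z ∈ ball (0:ℂ) 1, ‖deriv G z‖ ≤ ‖deriv h z‖) {ρ : ℝ} (hρ0 : 0 < ρ) (hρ1 : ρ < 1) :
    (∑' n, ‖coef G (n + 2)‖ ^ 2 * ρ ^ n) * (1 - ‖coef G 1‖ ^ 2 * ρ) ≤ (1 - ‖coef G 1‖ ^ 2) ^ 2
      ∧ ‖coef G 1‖ ≤ 1 := by
  obtain ⟨ω, hωd, hωb, hω⟩ := exists_mult (hG.deriv isOpen_ball) (hh.deriv isOpen_ball) hle
  set c := ω 0 with hc
  have h0b : (0:ℂ) ∈ ball (0:ℂ) 1 := by simp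
  have hcn : ‖c‖ ≤ 1 := hωb 0 h0b
  have hcoef1 : ∀ f : ℂ → ℂ, coef f 1 = deriv f 0 := by
    intro f; simp [coef]
  have hb1 : coef G 1 = c * coef h 1 := by
    rw [hcoef1, hcoef1]; exact hω 0 h0b
  have hx1 : ‖coef h 1‖ ≤ 1 := by
    rw [hcoef1]
    have hm : MapsTo h (ball 0 1) (closedBall (h 0) 1) := by
      intro w hw
      rw [h00, mem_closedBall_zero_iff]
      exact hb w hw
    simpa using Complex.norm_deriv_le_div_of_mapsTo_ball hh hm one_pos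
  have hA := schur_tail hh h00 hb hρ0 hρ1
  set x := ‖coef h 1‖ ^ 2 with hx
  set A := ∑' n, ‖coef h (n + 2)‖ ^ 2 * ρ ^ n with hAd
  set B := ∑' n, ‖coef G (n + 2)‖ ^ 2 * ρ ^ n with hBd
  have hx0 : 0 ≤ x := by positivity
  have hxle : x ≤ 1 := by rw [hx]; nlinarith [norm_nonneg (coef h 1)]
  have hA0 : 0 ≤ A := tsum_nonneg fun n => by positivity
  have hB0 : 0 ≤ B := tsum_nonneg fun n => by positivity
  have hGx : ‖coef G 1‖ ^ 2 = ‖c‖ ^ 2 * x := by rw [hb1, norm_mul, mul_pow]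
  have hk := key hh hG hωd hωb hω hρ0.le hρ1
  rw [← hc] at hk
  have ph := isPS_coef hh
  have pG := isPS_coef hG
  -- summability of the four families
  have hsA : Summable (fun n => ‖coef h (n + 2)‖ ^ 2 * ρ ^ n) := by
    have := (summable_nat_add_iff 2).2 (ph.summable_sq hρ0.le hρ1)
    refine (this.mul_left (ρ ^ 2)⁻¹).congr fun n => ?_
    rw [pow_add]; field_simp
  have hsB : Summable (fun n => ‖coef G (n + 2)‖ ^ 2 * ρ ^ n) := by
    have := (summable_nat_add_iff 2).2 (pG.summable_sq hρ0.le hρ1)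
    refine (this.mul_left (ρ ^ 2)⁻¹).congr fun n => ?_
    rw [pow_add]; field_simp
  have pU := (pG.sub (ph.const_mul c)).summable_sq hρ0.le hρ1
  have pV := (ph.sub (pG.const_mul ((starRingEnd ℂ) c))).summable_sq hρ0.le hρ1
  have hsU : Summable (fun n => ‖coef G (n + 2) - c * coef h (n + 2)‖ ^ 2 * ρ ^ n) := by
    have := (summable_nat_add_iff 2).2 pU
    refine (this.mul_left (ρ ^ 2)⁻¹).congr fun n => ?_
    rw [pow_add]; field_simp
  have hsV : Summable (fun n => ‖coef h (n + 2) - (starRingEnd ℂ) c * coef G (n + 2)‖ ^ 2 * ρ ^ n) := by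
    have := (summable_nat_add_iff 2).2 pV
    refine (this.mul_left (ρ ^ 2)⁻¹).congr fun n => ?_
    rw [pow_add]; field_simp
  set U := ∑' n, ‖coef G (n + 2) - c * coef h (n + 2)‖ ^ 2 * ρ ^ n with hU
  set V := ∑' n, ‖coef h (n + 2) - (starRingEnd ℂ) c * coef G (n + 2)‖ ^ 2 * ρ ^ n with hV
  have hUV : U ≤ (1 - ‖c‖ ^ 2) ^ 2 * x + ρ * V := by
    have l1 : Summable (fun n => ‖coef G (n + 1) - c * coef h (n + 1)‖ ^ 2 * ρ ^ n) := by
      have := (summable_nat_add_iff 1).2 pU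
      refine (this.mul_left (ρ ^ 1)⁻¹).congr fun n => ?_
      rw [pow_add]; field_simp
    have l2 : Summable (fun n => ‖coef h (n + 1) - (starRingEnd ℂ) c * coef G (n + 1)‖ ^ 2 * ρ ^ (n + 1)) :=
      (summable_nat_add_iff 1).2 pV
    rw [l1.tsum_eq_zero_add, l2.tsum_eq_zero_add] at hk
    have z1 : ‖coef G (0 + 1) - c * coef h (0 + 1)‖ ^ 2 * ρ ^ 0 = 0 := by
      simp [hb1]
    have z2 : ‖coef h (0 + 1) - (starRingEnd ℂ) c * coef G (0 + 1)‖ ^ 2 * ρ ^ (0 + 1)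
        = (1 - ‖c‖ ^ 2) ^ 2 * x * ρ := by
      have e : coef h (0 + 1) - (starRingEnd ℂ) c * coef G (0 + 1)
          = ((1 - ‖c‖ ^ 2 : ℝ) : ℂ) * coef h 1 := by
        rw [zero_add, hb1]
        push_cast
        rw [← Complex.conj_mul']
        ring
      rw [e, norm_mul, mul_pow, Complex.norm_real, Real.norm_eq_abs, sq_abs, hx]
      ring
    have z3 : ∑' n, ‖coef G (n + 1 + 1) - c * coef h (n + 1 + 1)‖ ^ 2 * ρ ^ (n + 1) = ρ * U := by
      rw [hU, ← tsum_mul_left]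
      refine tsum_congr fun n => ?_
      rw [pow_succ]; ring
    have z4 : ∑' n, ‖coef h (n + 1 + 1) - (starRingEnd ℂ) c * coef G (n + 1 + 1)‖ ^ 2 * ρ ^ (n + 1 + 1)
        = ρ * (ρ * V) := by
      rw [hV, ← tsum_mul_left, ← tsum_mul_left]
      refine tsum_congr fun n => ?_
      rw [pow_succ, pow_succ]; ring
    rw [z1, z2, z3, z4] at hk
    have : ρ * U ≤ ρ * ((1 - ‖c‖ ^ 2) ^ 2 * x + ρ * V) := by nlinarith
    exact le_of_mul_le_mul_left this hρ0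
  have star : ∀ P Q : ℝ, 0 ≤ P → 0 ≤ Q →
      P * Q * ((1 - ρ * ‖c‖ ^ 2) * B - (ρ - ‖c‖ ^ 2) * A - (1 - ‖c‖ ^ 2) ^ 2 * x)
        ≤ (1 - ρ) * ‖c‖ * (P ^ 2 * A + Q ^ 2 * B) := by
    intro P Q hP hQ
    have s1 := ((hsB.hasSum.mul_left (P * Q * (1 - ρ * ‖c‖ ^ 2) - (1 - ρ) * ‖c‖ * Q ^ 2)).sub
      (hsA.hasSum.mul_left (P * Q * (ρ - ‖c‖ ^ 2) + (1 - ρ) * ‖c‖ * P ^ 2)))
    have s2 := (hsU.hasSum.mul_left (P * Q)).sub (hsV.hasSum.mul_left (P * Q * ρ))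
    have hcmp := hasSum_le (fun n => by
      have := mul_le_mul_of_nonneg_right (term_ineq (coef h (n + 2)) (coef G (n + 2)) c hρ1 hP hQ)
        (pow_nonneg hρ0.le n)
      have e1 : (P * Q * (1 - ρ * ‖c‖ ^ 2) - (1 - ρ) * ‖c‖ * Q ^ 2) * (‖coef G (n + 2)‖ ^ 2 * ρ ^ n) -
          (P * Q * (ρ - ‖c‖ ^ 2) + (1 - ρ) * ‖c‖ * P ^ 2) * (‖coef h (n + 2)‖ ^ 2 * ρ ^ n)
          = (P * Q * ((1 - ρ * ‖c‖ ^ 2) * ‖coef G (n + 2)‖ ^ 2 - (ρ - ‖c‖ ^ 2) * ‖coef h (n + 2)‖ ^ 2)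
        - (1 - ρ) * ‖c‖ * (P ^ 2 * ‖coef h (n + 2)‖ ^ 2 + Q ^ 2 * ‖coef G (n + 2)‖ ^ 2)) * ρ ^ n := by
        ring
      have e2 : P * Q * (‖coef G (n + 2) - c * coef h (n + 2)‖ ^ 2 * ρ ^ n) -
          P * Q * ρ * (‖coef h (n + 2) - (starRingEnd ℂ) c * coef G (n + 2)‖ ^ 2 * ρ ^ n)
          = P * Q * (‖coef G (n + 2) - c * coef h (n + 2)‖ ^ 2
            - ρ * ‖coef h (n + 2) - (starRingEnd ℂ) c * coef G (n + 2)‖ ^ 2) * ρ ^ n := by
        ring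
      rw [e1, e2]
      exact this) s1 s2
    rw [← hAd, ← hBd, ← hU, ← hV] at hcmp
    have hPQ : 0 ≤ P * Q := mul_nonneg hP hQ
    have h3 : P * Q * (U - ρ * V) ≤ P * Q * ((1 - ‖c‖ ^ 2) ^ 2 * x) :=
      mul_le_mul_of_nonneg_left (by linarith) hPQ
    nlinarith
  have := alg hρ0 hρ1 (norm_nonneg c) hcn hx0 hxle hA0 hB0 hA star
  refine ⟨?_, ?_⟩
  · rw [hGx]
    exact this
  · rw [hb1, norm_mul]
    exact mul_le_one₀ hcn (norm_nonneg _) hx1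

end Pool.Agent.R218.Bohr
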