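import Pool.Agent.R218.Bohr.Fin

open Complex Metric Set Filter Topology
open Finset (range)

namespace Pool.Agent.R218.Bohr

/-- The pair `(h, g)` (that is, the harmonic mapping `h + conj g`) belongs to the class with
dilatation bound `k`: both parts are analytic in the unit disc and vanish at the origin, `h` is
bounded in the disc, and `|g'| ≤ k |h'|` in the disc. -/
structure HarmClass (k : ℝ) (h g : ℂ → ℂ) : Prop where
  hol_h : DifferentiableOn ℂ h (ball 0 1)
  hol_g : DifferentiableOn ℂ g (ball 0 1)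
  h_zero : h 0 = 0
  g_zero : g 0 = 0
  bdd : BddAbove ((fun z => ‖h z‖) '' ball (0:ℂ) 1)
  dil : ∀ z ∈ ball (0:ℂ) 1, ‖deriv g z‖ ≤ k * ‖deriv h z‖

/-- The supremum norm of `h` over the unit disc. -/
noncomputable def supNorm (h : ℂ → ℂ) : ℝ := sSup ((fun z => ‖h z‖) '' ball (0:ℂ) 1)

/-- The sum over `n ≥ 1` of `(|a_n| + |b_n|) r^n`, as an extended nonnegative number, where `a_n`
and `b_n` are the Taylor coefficients at the origin of `h` and `g`. -/
noncomputable def bohrSum (h g : ℂ → ℂ) (r : ℝ) : ENNReal :=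
  ∑' n : ℕ, ENNReal.ofReal ((‖coef h (n + 1)‖ + ‖coef g (n + 1)‖) * r ^ (n + 1))

/-- The conjectured radius. -/
noncomputable def rK (K : ℝ) : ℝ := (1 / 4) * Real.sqrt (7 / 2 - 1 / (2 * K ^ 2) + 5 / K)

lemma coef_const_mul {f : ℂ → ℂ} (hf : DifferentiableOn ℂ f (ball 0 1)) (c : ℂ) (n : ℕ) :
    coef (fun z => c * f z) n = c * coef f n :=
  (isPS_coef (hf.const_mul c)).unique ((isPS_coef hf).const_mul c) n

lemma deriv_cmul {f : ℂ → ℂ} (hf : DifferentiableOn ℂ f (ball 0 1)) (c : ℂ) {z : ℂ}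
    (hz : z ∈ ball (0:ℂ) 1) : deriv (fun w => c * f w) z = c * deriv f z :=
  deriv_const_mul c ((hf z hz).differentiableAt (isOpen_ball.mem_nhds hz))

lemma rK_sq {K : ℝ} (hK : 1 < K) :
    (3 - (K + 1) / (2 * K)) ^ 2 = 8 * (1 - rK K ^ 2) := by
  have hK0 : 0 < K := by linarith
  have hn : 0 ≤ 7 / 2 - 1 / (2 * K ^ 2) + 5 / K := by
    have h1 : 1 / (2 * K ^ 2) ≤ 1 := by
      rw [div_le_one (by positivity)]
      nlinarith
    have h2 : 0 ≤ 5 / K := by positivity
    linarith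
  unfold rK
  rw [mul_pow, Real.sq_sqrt hn]
  field_simp
  ring

lemma rK_pos {K : ℝ} (hK : 1 < K) : 0 < rK K := by
  have hK0 : 0 < K := by linarith
  have hn : 0 < 7 / 2 - 1 / (2 * K ^ 2) + 5 / K := by
    have h1 : 1 / (2 * K ^ 2) ≤ 1 := by
      rw [div_le_one (by positivity)]
      nlinarith
    have h2 : 0 ≤ 5 / K := by positivity
    linarith
  unfold rK
  positivity

/-- bound for the finite sums -/
lemma finite_sum_le {K : ℝ} (hK : 1 < K) {h g : ℂ → ℂ} (H : HarmClass ((K - 1) / (K + 1)) h g)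
    {r : ℝ} (hr0 : 0 ≤ r) (hr : r ≤ rK K) (N : ℕ) :
    ∑ n ∈ range N, (‖coef h (n + 1)‖ + ‖coef g (n + 1)‖) * r ^ (n + 1) ≤ supNorm h := by
  have hK0 : 0 < K := by linarith
  have hM : ∀ z ∈ ball (0:ℂ) 1, ‖h z‖ ≤ supNorm h := fun z hz =>
    le_csSup H.bdd ⟨z, hz, rfl⟩
  have hM0 : 0 ≤ supNorm h := (norm_nonneg _).trans (hM 0 (mem_ball_self one_pos))
  set k : ℝ := (K - 1) / (K + 1) with hk
  have hk0 : 0 < k := by
    rw [hk]
    apply div_pos <;> linarith
  set t : ℝ := (K + 1) / (2 * K) with ht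
  have htk : t * (1 + k) = 1 := by
    rw [ht, hk]
    field_simp
    ring
  have ht1 : t ≤ 1 := by
    rw [ht, div_le_one (by positivity)]
    linarith
  have hrq : (3 - t) ^ 2 ≤ 8 * (1 - r ^ 2) := by
    have h1 := rK_sq hK
    rw [← ht] at h1
    rw [h1]
    have : r ^ 2 ≤ rK K ^ 2 := by gcongr
    linarith
  apply le_of_forall_pos_le_add
  intro ε hε
  set M := supNorm h + ε with hMd
  have hMpos : 0 < M := by linarith
  set c : ℝ := 1 / M with hc
  have hc0 : 0 < c := by positivity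
  have hh' : DifferentiableOn ℂ (fun z => (c : ℂ) * h z) (ball 0 1) := H.hol_h.const_mul _
  have hb' : ∀ z ∈ ball (0:ℂ) 1, ‖(fun z => (c : ℂ) * h z) z‖ ≤ 1 := by
    intro z hz
    simp only [norm_mul, Complex.norm_real, Real.norm_of_nonneg hc0.le]
    calc c * ‖h z‖ ≤ c * M := by
          apply mul_le_mul_of_nonneg_left _ hc0.le
          have := hM z hz
          linarith
      _ = 1 := by rw [hc]; field_simp
  have hG' : DifferentiableOn ℂ (fun z => ((c / k : ℝ) : ℂ) * g z) (ball 0 1) :=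
    H.hol_g.const_mul _
  have e1 := core hh' hh' (by simp [H.h_zero]) hb' (fun z _ => le_rfl) hr0 hrq ht1 N
  have e2 := core hh' hG' (by simp [H.h_zero]) hb' (fun z hz => by
    rw [deriv_cmul H.hol_g _ hz, deriv_cmul H.hol_h _ hz, norm_mul, norm_mul, Complex.norm_real,
      Complex.norm_real, Real.norm_of_nonneg hc0.le, Real.norm_of_nonneg (by positivity)]
    have := H.dil z hz
    calc c / k * ‖deriv g z‖ ≤ c / k * (k * ‖deriv h z‖) := by gcongr
      _ = c * ‖deriv h z‖ := by field_simp) hr0 hrq ht1 N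
  have f1 : ∑ n ∈ range N, ‖coef (fun z => (c : ℂ) * h z) (n + 1)‖ * r ^ (n + 1)
      = c * ∑ n ∈ range N, ‖coef h (n + 1)‖ * r ^ (n + 1) := by
    rw [Finset.mul_sum]
    apply Finset.sum_congr rfl
    intro n _
    rw [coef_const_mul H.hol_h, norm_mul, Complex.norm_real, Real.norm_of_nonneg hc0.le]
    ring
  have f2 : ∑ n ∈ range N, ‖coef (fun z => ((c / k : ℝ) : ℂ) * g z) (n + 1)‖ * r ^ (n + 1)
      = c / k * ∑ n ∈ range N, ‖coef g (n + 1)‖ * r ^ (n + 1) := by
    rw [Finset.mul_sum]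
    apply Finset.sum_congr rfl
    intro n _
    rw [coef_const_mul H.hol_g, norm_mul, Complex.norm_real,
      Real.norm_of_nonneg (by positivity : 0 ≤ c / k)]
    ring
  rw [f1] at e1
  rw [f2] at e2
  set A := ∑ n ∈ range N, ‖coef h (n + 1)‖ * r ^ (n + 1) with hA
  set B := ∑ n ∈ range N, ‖coef g (n + 1)‖ * r ^ (n + 1) with hB
  have hsum : ∑ n ∈ range N, (‖coef h (n + 1)‖ + ‖coef g (n + 1)‖) * r ^ (n + 1) = A + B := by
    rw [hA, hB, ← Finset.sum_add_distrib]
    apply Finset.sum_congr rfl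
    intro n _
    ring
  rw [hsum]
  have g1 : A ≤ t * M := by
    rw [hc, one_div, inv_mul_le_iff₀ hMpos] at e1
    linarith
  have g2 : B ≤ k * (t * M) := by
    have : c / k * B = (1 / (M * k)) * B := by rw [hc]; field_simp
    rw [this, one_div, inv_mul_le_iff₀ (by positivity)] at e2
    linarith
  calc A + B ≤ t * M + k * (t * M) := by linarith
    _ = (t * (1 + k)) * M := by ring
    _ = M := by rw [htk, one_mul]

theorem upper {K : ℝ} (hK : 1 < K) {h g : ℂ → ℂ} (H : HarmClass ((K - 1) / (K + 1)) h g)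
    {r : ℝ} (hr0 : 0 ≤ r) (hr : r ≤ rK K) :
    bohrSum h g r ≤ ENNReal.ofReal (supNorm h) := by
  unfold bohrSum
  apply ENNReal.tsum_le_of_sum_range_le
  intro N
  rw [← ENNReal.ofReal_sum_of_nonneg (fun n _ => by positivity)]
  exact ENNReal.ofReal_le_ofReal (finite_sum_le hK H hr0 hr N)

end Pool.Agent.R218.Bohr
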