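import Pool.Agent.R218.Bohr.PS

open Complex Metric Set Filter Topology
open Finset (range)

namespace Pool.Agent.R218.Bohr

/-- integrating a nonnegative power series once -/
lemma integrate_nonneg {c : ℕ → ℝ} (hs : ∀ s : ℝ, 0 ≤ s → s < 1 → Summable (fun n => |c n| * s ^ n))
    (hpos : ∀ s : ℝ, 0 ≤ s → s < 1 → 0 ≤ ∑' n, c n * s ^ n) {s : ℝ} (h0 : 0 ≤ s) (h1 : s < 1) :
    0 ≤ ∑' n, c n / ((n : ℝ) + 1) * s ^ n := by
  rcases h0.eq_or_lt with h | hspos
  · subst h
    have h2 := hpos 0 le_rfl one_pos
    rw [tsum_eq_single 0] at h2 ⊢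
    · simpa using h2
    · intro n hn; simp [hn]
    · intro n hn; simp [hn]
  · have key : HasSum (fun n => ∫ x in (0:ℝ)..s, c n * x ^ n) (∫ x in (0:ℝ)..s, ∑' n, c n * x ^ n) := by
      apply intervalIntegral.hasSum_integral_of_dominated_convergence (fun n _ => |c n| * s ^ n)
      · intro n
        apply Continuous.aestronglyMeasurable
        fun_prop
      · intro n
        filter_upwards with x hx
        rw [uIoc_of_le h0] at hx
        rw [norm_mul, Real.norm_eq_abs, norm_pow, Real.norm_of_nonneg hx.1.le]
        have := pow_le_pow_left₀ hx.1.le hx.2 n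
        exact mul_le_mul_of_nonneg_left this (abs_nonneg _)
      · filter_upwards with x hx
        exact hs s h0 h1
      · exact intervalIntegrable_const
      · filter_upwards with x hx
        rw [uIoc_of_le h0] at hx
        have h3 : Summable (fun n => c n * x ^ n) := by
          apply Summable.of_norm
          refine (hs x hx.1.le (hx.2.trans_lt h1)).congr fun n => ?_
          rw [norm_mul, Real.norm_eq_abs, norm_pow, Real.norm_of_nonneg hx.1.le]
        exact h3.hasSum
    have hnn : 0 ≤ ∫ x in (0:ℝ)..s, ∑' n, c n * x ^ n := by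
      apply intervalIntegral.integral_nonneg h0
      intro x hx
      exact hpos x hx.1 (hx.2.trans_lt h1)
    have e1 : ∀ n : ℕ, ∫ x in (0:ℝ)..s, c n * x ^ n = s * (c n / ((n : ℝ) + 1) * s ^ n) := by
      intro n
      rw [intervalIntegral.integral_const_mul, integral_pow]
      simp
      ring
    simp_rw [e1] at key
    have h4 := key.tsum_eq
    rw [tsum_mul_left] at h4
    rw [← h4] at hnn
    exact nonneg_of_mul_nonneg_right hnn hspos

end Pool.Agent.R218.Bohr
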